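import Mathlib

/-! Abel summation bounds and elementary facts on the Moebius exponential sum. -/

open MeasureTheory Filter Topology Complex Set
open scoped Real ArithmeticFunction.Moebius

namespace H682Z

noncomputable section

theorem abel_bound (c : ℕ → ℂ) (hc : c 0 = 0) {f f' : ℝ → ℂ}
    (hf : ∀ t, 0 < t → HasDerivAt f (f' t) t) (hf' : ContinuousOn f' (Ioi 0)) {B : ℝ → ℝ}
    (hB : IntegrableOn B (Ioi 0))
    (hb : ∀ t, 0 < t → ‖f' t‖ * ‖∑ k ∈ Finset.Icc 0 ⌊t⌋₊, c k‖ ≤ B t)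
    (hlim : Tendsto (fun n : ℕ => f n * ∑ k ∈ Finset.Icc 0 n, c k) atTop (𝓝 0)) {L : ℂ}
    (hL : HasSum (fun n : ℕ => f n * c n) L) : ‖L‖ ≤ ∫ t in Ioi 0, B t := by
  have h1 : Tendsto (fun n : ℕ => ∑ k ∈ Finset.Icc 0 n, f k * c k) atTop (𝓝 L) := by
    have := hL.tendsto_sum_nat.comp (tendsto_add_atTop_nat 1)
    refine this.congr fun n => ?_
    simp only [Function.comp]
    rw [Nat.range_succ_eq_Icc_zero]
  have h2 := (h1.sub hlim).norm
  rw [sub_zero] at h2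
  refine le_of_tendsto' h2 fun m => ?_
  have hd : ∀ t ∈ Set.Icc (1 : ℝ) m, deriv f t = f' t := fun t ht =>
    (hf t (by linarith [ht.1])).deriv
  have hsub : Set.Icc (1 : ℝ) m ⊆ Ioi 0 := fun t ht => by
    have := ht.1
    simp only [mem_Ioi]; linarith
  have hi : IntegrableOn (deriv f) (Set.Icc (1 : ℝ) m) :=
    ((hf'.mono hsub).integrableOn_Icc).congr_fun (fun t ht => (hd t ht).symm) measurableSet_Icc
  rw [sum_mul_eq_sub_integral_mul₀' c hc m
    (fun t ht => (hf t (by linarith [ht.1])).differentiableAt) hi, sub_sub_cancel_left, norm_neg]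
  have hB0 : ∀ t ∈ Ioi (0 : ℝ), 0 ≤ B t := fun t ht => le_trans (by positivity) (hb t ht)
  calc ‖∫ t in Set.Ioc (1 : ℝ) m, deriv f t * ∑ k ∈ Finset.Icc 0 ⌊t⌋₊, c k‖
      ≤ ∫ t in Set.Ioc (1 : ℝ) m, B t := by
        refine norm_integral_le_of_norm_le (hB.mono_set (Ioc_subset_Icc_self.trans hsub)) ?_
        refine (ae_restrict_iff' measurableSet_Ioc).2 (Eventually.of_forall fun t ht => ?_)
        rw [norm_mul, hd t (Ioc_subset_Icc_self ht)]
        exact hb t (by linarith [ht.1])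
    _ ≤ ∫ t in Ioi 0, B t := by
        refine setIntegral_mono_set hB ?_ (Ioc_subset_Icc_self.trans hsub).eventuallyLE
        exact (ae_restrict_iff' measurableSet_Ioi).2 (Eventually.of_forall hB0)

theorem abel_scaled (c : ℕ → ℂ) (hc : c 0 = 0) {f f' : ℝ → ℂ}
    (hf : ∀ t, 0 < t → HasDerivAt f (f' t) t) (hf' : ContinuousOn f' (Ioi 0)) {B : ℝ → ℝ}
    (hB : IntegrableOn B (Ioi 0)) {l : ℝ} (hl : 0 < l)
    (hb : ∀ v, 0 < v → ‖f' v‖ * ‖∑ k ∈ Finset.Icc 0 ⌊v / l⌋₊, c k‖ ≤ B v)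
    (hlim : Tendsto (fun n : ℕ => f (l * n) * ∑ k ∈ Finset.Icc 0 n, c k) atTop (𝓝 0)) {L : ℂ}
    (hL : HasSum (fun n : ℕ => f (l * n) * c n) L) : ‖L‖ ≤ ∫ t in Ioi 0, B t := by
  have h1 := abel_bound c hc (f := fun t => f (l * t)) (f' := fun t => l • f' (l * t))
    (B := fun t => l * B (l * t)) ?_ ?_ ?_ ?_ hlim hL
  · rw [integral_const_mul, integral_comp_mul_left_Ioi B 0 hl, mul_zero, smul_eq_mul,
      ← mul_assoc, mul_inv_cancel₀ hl.ne', one_mul] at h1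
    exact h1
  · intro t ht
    have h2 : HasDerivAt (fun t : ℝ => l * t) l t := by
      simpa using (hasDerivAt_id t).const_mul l
    exact (hf (l * t) (mul_pos hl ht)).scomp t h2
  · refine ContinuousOn.const_smul (hf'.comp (by fun_prop) fun t ht => ?_) l
    exact mul_pos hl ht
  · refine Integrable.const_mul (f := fun t => B (l * t)) ?_ l
    change IntegrableOn (fun t => B (l * t)) (Ioi 0)
    rw [integrableOn_Ioi_comp_mul_left_iff B 0 hl, mul_zero]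
    exact hB
  · intro t ht
    have := hb (l * t) (mul_pos hl ht)
    rw [mul_div_cancel_left₀ _ hl.ne'] at this
    rw [norm_smul, Real.norm_of_nonneg hl.le, mul_assoc]
    exact mul_le_mul_of_nonneg_left this hl.le

theorem pow_exp_le (k : ℕ) {β : ℝ} (hβ : 0 < β) {x : ℝ} (hx : 0 ≤ x) :
    x ^ k * Real.exp (-(β * x)) ≤ k.factorial / β ^ k := by
  have h := Real.pow_div_factorial_le_exp (β * x) (by positivity) k
  rw [div_le_iff₀ (by positivity), mul_pow] at h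
  rw [le_div_iff₀ (by positivity), Real.exp_neg]
  have h2 := Real.exp_pos (β * x)
  calc x ^ k * (Real.exp (β * x))⁻¹ * β ^ k = (β ^ k * x ^ k) / Real.exp (β * x) := by ring
    _ ≤ _ := by rw [div_le_iff₀ h2]; linarith

/-- the exponential sum, summed from `0` -/
def SS (x : ℝ) (N : ℕ) : ℂ := ∑ n ∈ Finset.Icc 0 N, (μ n : ℂ) * cexp (2 * π * I * n * x)

theorem norm_mu_le (n : ℕ) : ‖((μ n : ℤ) : ℂ)‖ ≤ 1 := by
  rw [Complex.norm_intCast]
  exact_mod_cast ArithmeticFunction.abs_moebius_le_one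

theorem norm_e (y : ℝ) : ‖cexp (2 * π * I * y)‖ = 1 := by
  have : (2 * π * I * y : ℂ) = ((2 * π * y : ℝ) : ℂ) * I := by push_cast; ring
  rw [this, Complex.norm_exp_ofReal_mul_I]

theorem norm_e_sub (y y' : ℝ) :
    ‖cexp (2 * π * I * y) - cexp (2 * π * I * y')‖ ≤ 2 * π * |y - y'| := by
  have h1 : cexp (2 * π * I * y) - cexp (2 * π * I * y') =
      cexp (2 * π * I * y') * (cexp (I * ((2 * π * (y - y') : ℝ) : ℂ)) - 1) := by
    rw [mul_sub, ← Complex.exp_add, mul_one]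
    congr 2
    push_cast; ring
  rw [h1, norm_mul, norm_e, one_mul]
  refine Real.norm_exp_I_mul_ofReal_sub_one_le.trans (le_of_eq ?_)
  rw [Real.norm_eq_abs, abs_mul, abs_of_pos (by positivity : (0 : ℝ) < 2 * π)]

theorem SS_succ (x : ℝ) (N : ℕ) :
    SS x (N + 1) = SS x N + (μ (N + 1) : ℂ) * cexp (2 * π * I * ((N + 1 : ℕ) : ℂ) * x) := by
  unfold SS
  rw [Finset.sum_Icc_succ_top (Nat.zero_le _)]

theorem SS_triv (x : ℝ) (N : ℕ) : ‖SS x N‖ ≤ N := by
  induction N with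
  | zero => simp [SS]
  | succ N ih =>
    rw [SS_succ]
    refine (norm_add_le _ _).trans ?_
    have h1 := norm_e (((N + 1 : ℕ) : ℝ) * x)
    have h2 : (2 * π * I * ((((N + 1 : ℕ) : ℝ) * x : ℝ) : ℂ)) =
        2 * π * I * ((N + 1 : ℕ) : ℂ) * x := by push_cast; ring
    rw [h2] at h1
    rw [norm_mul, h1]
    have := norm_mu_le (N + 1)
    push_cast at *
    linarith

theorem SS_lip (x x' : ℝ) (N : ℕ) : ‖SS x N - SS x' N‖ ≤ 2 * π * |x - x'| * (N : ℝ) ^ 2 := by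
  induction N with
  | zero => simp [SS]
  | succ N ih =>
    rw [SS_succ, SS_succ, add_sub_add_comm, ← mul_sub]
    refine (norm_add_le _ _).trans ?_
    have h1 := norm_e_sub (((N + 1 : ℕ) : ℝ) * x) (((N + 1 : ℕ) : ℝ) * x')
    have h2 : ∀ x : ℝ, (2 * π * I * ((((N + 1 : ℕ) : ℝ) * x : ℝ) : ℂ)) =
        2 * π * I * ((N + 1 : ℕ) : ℂ) * x := fun x => by push_cast; ring
    rw [h2, h2, ← mul_sub, abs_mul, Nat.abs_cast] at h1
    have h3 := mul_le_mul (norm_mu_le (N + 1)) h1 (norm_nonneg _) zero_le_one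
    rw [norm_mul]
    have h4 : 0 ≤ 2 * π * |x - x'| := by positivity
    have h5 : (0 : ℝ) ≤ N := Nat.cast_nonneg N
    push_cast at *
    nlinarith

theorem SS_dom {C₀ : ℝ} (h : ∀ N : ℕ, ‖SS 0 N‖ ≤ C₀ * √N) (x : ℝ) (N : ℕ) :
    ‖SS x N‖ ≤ C₀ * √N * (1 + 2 * π * |x| * N) := by
  have hC : 0 ≤ C₀ := by
    have := h 1
    simp only [Nat.cast_one, Real.sqrt_one, mul_one] at this
    exact (norm_nonneg _).trans this
  have key : ∀ N : ℕ, ‖SS x N - SS 0 N * cexp (2 * π * I * ((N : ℝ) * x : ℝ))‖ ≤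
      C₀ * √N * (2 * π * |x| * N) := by
    intro N
    induction N with
    | zero => simp [SS]
    | succ N ih =>
      have e : SS x (N + 1) - SS 0 (N + 1) * cexp (2 * π * I * (((N + 1 : ℕ) : ℝ) * x : ℝ)) =
          (SS x N - SS 0 N * cexp (2 * π * I * ((N : ℝ) * x : ℝ))) + SS 0 N *
            (cexp (2 * π * I * ((N : ℝ) * x : ℝ)) -
              cexp (2 * π * I * (((N + 1 : ℕ) : ℝ) * x : ℝ))) := by
        rw [SS_succ, SS_succ]
        have h2 : (2 * π * I * ((((N + 1 : ℕ) : ℝ) * x : ℝ) : ℂ)) =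
          2 * π * I * ((N + 1 : ℕ) : ℂ) * x := by push_cast; ring
        rw [h2]
        simp only [ofReal_zero, mul_zero, Complex.exp_zero]
        ring
      rw [e]
      refine (norm_add_le _ _).trans ?_
      have h1 := norm_e_sub ((N : ℝ) * x) (((N + 1 : ℕ) : ℝ) * x)
      have h3 : |(N : ℝ) * x - ((N + 1 : ℕ) : ℝ) * x| = |x| := by
        rw [← abs_neg]; congr 1; push_cast; ring
      rw [h3] at h1
      have h4 := mul_le_mul (h N) h1 (norm_nonneg _) (by positivity)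
      rw [norm_mul]
      have h5 : √(N : ℝ) ≤ √((N + 1 : ℕ) : ℝ) := Real.sqrt_le_sqrt (by push_cast; linarith)
      calc _ ≤ C₀ * √N * (2 * π * |x| * N) + C₀ * √N * (2 * π * |x|) := add_le_add ih h4
        _ = C₀ * √N * (2 * π * |x| * ((N + 1 : ℕ) : ℝ)) := by push_cast; ring
        _ ≤ _ := by gcongr
  have h1 := norm_add_le (SS x N - SS 0 N * cexp (2 * π * I * ((N : ℝ) * x : ℝ)))
    (SS 0 N * cexp (2 * π * I * ((N : ℝ) * x : ℝ)))
  rw [sub_add_cancel, norm_mul, norm_e, mul_one] at h1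
  have := key N
  have := h N
  nlinarith

theorem SS_global {C : ℝ} (h : ∀ᶠ N : ℕ in atTop, ‖SS 0 N‖ ≤ C * √N) :
    ∃ C₀ : ℝ, 0 ≤ C₀ ∧ ∀ N : ℕ, ‖SS 0 N‖ ≤ C₀ * √N := by
  obtain ⟨N₀, hN₀⟩ := eventually_atTop.1 h
  refine ⟨max C 0 + √N₀, by positivity, fun N => ?_⟩
  have h0 := Real.sqrt_nonneg (N : ℝ)
  have h1 := Real.sqrt_nonneg (N₀ : ℝ)
  rcases le_total N₀ N with hN | hN
  · refine (hN₀ N hN).trans (mul_le_mul_of_nonneg_right ?_ h0)
    linarith [le_max_left C 0]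
  · have h2 : √(N : ℝ) ≤ √(N₀ : ℝ) := Real.sqrt_le_sqrt (by exact_mod_cast hN)
    have h3 := SS_triv 0 N
    have h4 : (N : ℝ) = √N * √N := (Real.mul_self_sqrt (Nat.cast_nonneg N)).symm
    have h5 := le_max_right C 0
    nlinarith

theorem SS_real {C β : ℝ} (hC : 0 ≤ C) (hβ : 0 ≤ β)
    (h : ∀ᶠ N : ℕ in atTop, ‖SS (β / N) N‖ ≤ C * √N) :
    ∀ᶠ t : ℝ in atTop, ‖SS (β / t) ⌊t⌋₊‖ ≤ (C + 1) * √t := by
  have h1 := (tendsto_nat_floor_atTop (α := ℝ)).eventually h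
  have h2 := Real.tendsto_sqrt_atTop.eventually (eventually_ge_atTop (2 * π * β))
  filter_upwards [h1, h2, eventually_ge_atTop 1] with t e1 e2 e3
  have f1 : (⌊t⌋₊ : ℝ) ≤ t := Nat.floor_le (by linarith)
  have f2 : t < ⌊t⌋₊ + 1 := Nat.lt_floor_add_one t
  have f3 : (1 : ℝ) ≤ ⌊t⌋₊ := by exact_mod_cast (Nat.one_le_floor_iff t).2 e3
  have f4 := SS_lip (β / t) (β / ⌊t⌋₊) ⌊t⌋₊
  have f5 : √(⌊t⌋₊ : ℝ) ≤ √t := Real.sqrt_le_sqrt f1
  set N : ℝ := (⌊t⌋₊ : ℝ) with hN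
  have f6 : |β / t - β / N| * N ^ 2 ≤ β := by
    have g1 : β / t ≤ β / N := div_le_div_of_nonneg_left hβ (by linarith) f1
    rw [abs_sub_comm, abs_of_nonneg (by linarith)]
    have g2 : (β / N - β / t) * N ^ 2 = β * ((t - N) * (N / t)) := by
      field_simp
    rw [g2]
    refine mul_le_of_le_one_right hβ (mul_le_one₀ (by linarith) (by positivity) ?_)
    rw [div_le_one (by linarith)]; exact f1
  have f7 := norm_add_le (SS (β / t) ⌊t⌋₊ - SS (β / N) ⌊t⌋₊) (SS (β / N) ⌊t⌋₊)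
  rw [sub_add_cancel] at f7
  have f8 : 2 * π * |β / t - β / N| * N ^ 2 ≤ 2 * π * β := by
    rw [mul_assoc]; exact mul_le_mul_of_nonneg_left f6 (by positivity)
  have f9 := mul_le_mul_of_nonneg_left f5 hC
  linarith

end

end H682Z
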