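import Mathlib

/-! Linear independence of the numbers `1 / sqrt n`, `n` squarefree (Besicovitch). -/

open Polynomial

namespace H682Z

theorem eq_of_isSquare_mul {m n : ℕ} (hm : Squarefree m) (hn : Squarefree n)
    (h : IsSquare (m * n)) : m = n := by
  obtain ⟨k, hk⟩ := h
  have h1 : m ∣ k := hm.isRadical 2 k ⟨n, by rw [sq, ← hk]⟩
  obtain ⟨j, rfl⟩ := h1
  have hm0 : m ≠ 0 := hm.ne_zero
  have h2 : n = m * (j * j) := by
    apply Nat.eq_of_mul_eq_mul_left (Nat.pos_of_ne_zero hm0)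
    rw [hk]; ring
  have h3 : IsUnit j := hn j ⟨m, by rw [h2]; ring⟩
  rw [Nat.isUnit_iff] at h3
  subst h3
  simpa using h2.symm

theorem trace_zero {K : Type*} [Field K] [Algebra ℚ K] [FiniteDimensional ℚ K] (x : K) (d : ℕ)
    (hd : ¬ IsSquare d) (hx : x ^ 2 = d) : Algebra.trace ℚ K x = 0 := by
  have hirr : Irreducible (X ^ 2 - C (d : ℚ) : ℚ[X]) := by
    refine X_pow_sub_C_irreducible_of_prime Nat.prime_two fun b hb => hd ?_
    rw [← Rat.isSquare_natCast_iff]
    exact ⟨b, by rw [← hb, sq]⟩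
  have hmin : minpoly ℚ x = X ^ 2 - C (d : ℚ) := by
    refine (minpoly.eq_of_irreducible_of_monic hirr ?_ (monic_X_pow_sub_C _ two_ne_zero)).symm
    simp [hx]
  rw [trace_eq_finrank_mul_minpoly_nextCoeff, hmin]
  have : (X ^ 2 - C (d : ℚ) : ℚ[X]).nextCoeff = 0 := by
    rw [nextCoeff_of_natDegree_pos (by rw [natDegree_X_pow_sub_C]; norm_num),
      natDegree_X_pow_sub_C]
    simp [coeff_X_pow]
  rw [this]; simp

theorem besicovitch (S : Finset ℕ) (hS : ∀ n ∈ S, Squarefree n) (c : S → ℤ)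
    (h : ∑ i : S, (c i : ℝ) * (2 / Real.sqrt i) = 0) : c = 0 := by
  classical
  let K := IntermediateField.adjoin ℚ (Set.range fun i : S => Real.sqrt i)
  have hint : ∀ x ∈ (Set.range fun i : S => Real.sqrt i), IsIntegral ℚ x := by
    rintro x ⟨i, rfl⟩
    refine ⟨X ^ 2 - C ((i : ℕ) : ℚ), monic_X_pow_sub_C _ two_ne_zero, ?_⟩
    simp [Real.sq_sqrt]
  have : FiniteDimensional ℚ K := IntermediateField.finiteDimensional_adjoin hint
  let s : S → K := fun i => ⟨Real.sqrt i, IntermediateField.subset_adjoin _ _ ⟨i, rfl⟩⟩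
  have hs : ∀ i, s i ^ 2 = ((i : ℕ) : K) := fun i => by
    apply Subtype.ext
    simp [s, Real.sq_sqrt]
  funext m
  have hpos : ∀ i : S, (0 : ℝ) < (i : ℕ) := fun i => by
    exact_mod_cast Nat.pos_of_ne_zero (hS i i.2).ne_zero
  have h1 : ∑ i : S, ((c i : ℚ) / (i : ℕ)) • (s m * s i) = 0 := by
    apply Subtype.ext
    have e : ((∑ i : S, ((c i : ℚ) / (i : ℕ)) • (s m * s i) : K) : ℝ) =
        Real.sqrt m / 2 * ∑ i : S, (c i : ℝ) * (2 / Real.sqrt i) := by
      rw [Finset.mul_sum, IntermediateField.coe_sum]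
      refine Finset.sum_congr rfl fun i _ => ?_
      have h2 : Real.sqrt i ≠ 0 := (Real.sqrt_pos.2 (hpos i)).ne'
      have h3 : ((i : ℕ) : ℝ) = Real.sqrt i * Real.sqrt i := (Real.mul_self_sqrt (hpos i).le).symm
      rw [IntermediateField.coe_smul, IntermediateField.coe_mul, Rat.smul_def]
      simp only [s]
      push_cast
      generalize Real.sqrt i = y at *
      rw [h3]
      field_simp
    rw [e, h]; simp
  have h2 := congrArg (Algebra.trace ℚ K) h1
  rw [map_sum, map_zero, Finset.sum_eq_single m] at h2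
  · rw [← sq, hs, map_smul, ← eq_ratCast (algebraMap ℚ K) _ |>.trans (Rat.cast_natCast _),
      Algebra.trace_algebraMap] at h2
    have h3 : (Module.finrank ℚ K : ℚ) ≠ 0 := by exact_mod_cast Module.finrank_pos.ne'
    have h4 : (((m : ℕ) : ℚ)) ≠ 0 := by exact_mod_cast (hS m m.2).ne_zero
    simpa [h3, h4] using h2
  · intro i _ hi
    rw [map_smul, trace_zero (s m * s i) (m * i) ?_ ?_, smul_zero]
    · intro hsq
      exact hi (Subtype.ext (eq_of_isSquare_mul (hS m m.2) (hS i i.2) hsq).symm)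
    · rw [mul_pow, hs, hs]; push_cast; ring
  · simp

end H682Z
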