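import Pool.Agent.H682Z.Gam

/-! Bounds for the two series by Abel summation. -/

open MeasureTheory Filter Topology Complex Set
open scoped Real ArithmeticFunction.Moebius

namespace H682Z

noncomputable section

theorem al_le0 (a : ℂ) {ρ : ℝ} (hρ : 0 < ρ) :
    ‖al a ρ‖ ≤ ρ ^ 2 * (‖a‖ * ρ ^ 2 + 1) * Real.exp (-(a.re * ρ ^ 2)) := by
  unfold al
  rw [norm_mul, norm_mul, norm_pow, Complex.norm_real, Real.norm_of_nonneg hρ.le,
    Complex.norm_exp]
  have e : (-(a * (ρ : ℂ) ^ 2)).re = -(a.re * ρ ^ 2) := by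
    rw [← Complex.ofReal_pow, neg_re, Complex.re_mul_ofReal]
  rw [e]
  gcongr
  refine (norm_sub_le _ _).trans ?_
  rw [norm_mul, norm_pow, Complex.norm_real, Real.norm_of_nonneg hρ.le]
  norm_num

theorem al_le {a : ℂ} (ha : 0 < a.re) (ρ : ℝ) (hρ : 0 < ρ) :
    ‖al a ρ‖ ≤ (‖a‖ * (6 / a.re ^ 3) + 2 / a.re ^ 2) / ρ ^ 2 := by
  have h2 := pow_exp_le 3 ha (sq_nonneg ρ)
  have h3 := pow_exp_le 2 ha (sq_nonneg ρ)
  simp only [Nat.factorial, Nat.succ_eq_add_one, Nat.reduceAdd, Nat.reduceMul, mul_one,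
    Nat.cast_ofNat] at h2 h3
  refine (al_le0 a hρ).trans ?_
  rw [le_div_iff₀ (by positivity)]
  have := mul_le_mul_of_nonneg_left h2 (norm_nonneg a)
  nlinarith

theorem al_cont (a : ℂ) : Continuous (al a) := by
  unfold al; fun_prop

theorem ta_le {b : ℂ} (hb : 0 < b.re) (ρ : ℝ) (hρ : 0 < ρ) : ‖ta b ρ⁻¹‖ ≤ 1 / ρ ^ 2 := by
  unfold ta
  rw [norm_mul, norm_pow, Complex.norm_real, Real.norm_of_nonneg (by positivity),
    Complex.norm_exp, neg_re, Complex.re_mul_ofReal, inv_pow, one_div]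
  refine mul_le_of_le_one_right (by positivity) (Real.exp_le_one_iff.2 ?_)
  have : 0 ≤ b.re * ρ⁻¹ := by positivity
  linarith

theorem ta_cont (b : ℂ) : ContinuousOn (fun ρ : ℝ => ta b ρ⁻¹) (Ioi 0) := by
  have h1 : Continuous (ta b) := by unfold ta; fun_prop
  exact h1.comp_continuousOn (continuousOn_inv₀.mono fun x hx => ne_of_gt hx)

theorem hd_sqrt {v : ℝ} (hv : 0 < v) :
    HasDerivAt (fun v : ℝ => ((√v : ℝ) : ℂ)) (1 / (2 * ((√v : ℝ) : ℂ))) v := by
  have := (Real.hasDerivAt_sqrt hv.ne').ofReal_comp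
  push_cast at this
  exact this

theorem cont_sqrt : Continuous (fun v : ℝ => ((√v : ℝ) : ℂ)) := by fun_prop

theorem sqrt_ne {v : ℝ} (hv : 0 < v) : ((√v : ℝ) : ℂ) ≠ 0 := by
  exact_mod_cast (Real.sqrt_pos.2 hv).ne'

theorem G_bound {a : ℂ} (ha : 0 < a.re) {r : ℝ} (hr : 0 < r) {σ : ℝ → ℝ}
    (hσ : ∀ v, 0 < v → ‖SS (-a.im * r ^ 2 / (2 * π)) ⌊v / (a.re * r ^ 2)⌋₊‖ ≤
      σ v * √(v / (a.re * r ^ 2)))
    (hi : IntegrableOn (fun v => (1 + v) ^ 2 * Real.exp (-v) * σ v) (Ioi 0)) :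
    ‖ser (al a) r‖ ≤ ‖a‖ / a.re ^ 2 * ∫ v in Ioi 0, (1 + v) ^ 2 * Real.exp (-v) * σ v := by
  set l := a.re * r ^ 2 with hl
  have hl0 : 0 < l := by positivity
  set x := -a.im * r ^ 2 / (2 * π) with hx
  set κ : ℂ := a / a.re with hκ
  have hare : (a.re : ℂ) ≠ 0 := by exact_mod_cast ha.ne'
  have hκn : ‖κ‖ = ‖a‖ / a.re := by
    rw [hκ, norm_div, Complex.norm_real, Real.norm_of_nonneg ha.le]
  have hκ1 : 1 ≤ ‖κ‖ := by
    rw [hκn, le_div_iff₀ ha, one_mul]; exact Complex.re_le_norm a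
  let f : ℝ → ℂ := fun v => ((√v : ℝ) : ℂ) * (κ * v - 1 / 2) * cexp (-(v : ℂ))
  let f' : ℝ → ℂ := fun v => (3 / 2 * κ * v - 1 / 4 - κ * v ^ 2 + v / 2) / ((√v : ℝ) : ℂ) *
    cexp (-(v : ℂ))
  have hf : ∀ v, 0 < v → HasDerivAt f (f' v) v := by
    intro v hv
    have h0 : HasDerivAt (fun v : ℝ => (v : ℂ)) 1 v := Complex.ofRealCLM.hasDerivAt
    have h1 := ((hd_sqrt hv).mul ((h0.const_mul κ).sub_const (1 / 2))).mul h0.neg.cexp
    refine HasDerivAt.congr_deriv h1 (Eq.symm ?_)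
    have h2 := sqrt_ne hv
    have h3 : (v : ℂ) = ((√v : ℝ) : ℂ) * ((√v : ℝ) : ℂ) := by
      exact_mod_cast (Real.mul_self_sqrt hv.le).symm
    simp only [f', Pi.mul_apply, Pi.neg_apply]
    generalize cexp (-(v : ℂ)) = E
    generalize ((√v : ℝ) : ℂ) = y at *
    rw [h3]
    field_simp
    ring
  have hf' : ContinuousOn f' (Ioi 0) := by
    refine ContinuousOn.mul (ContinuousOn.div (by fun_prop) cont_sqrt.continuousOn
      fun v hv => sqrt_ne hv) (by fun_prop)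
  have hnf' : ∀ v, 0 < v → ‖f' v‖ ≤ ‖κ‖ * (1 + v) ^ 2 / √v * Real.exp (-v) := by
    intro v hv
    simp only [f']
    rw [norm_mul, norm_div, Complex.norm_real, Real.norm_of_nonneg (Real.sqrt_nonneg _),
      Complex.norm_exp, neg_re, ofReal_re]
    gcongr
    refine (norm_add_le _ _).trans ((add_le_add_left ((norm_sub_le _ _).trans
      (add_le_add_left (norm_sub_le _ _) _)) _).trans ?_)
    simp only [norm_mul, norm_div, norm_pow, Complex.norm_real, Real.norm_of_nonneg hv.le,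
      Complex.norm_ofNat, norm_one]
    nlinarith [mul_nonneg (sub_nonneg.2 hκ1) hv.le]
  have hsum : HasSum (fun n : ℕ => f (l * n) * ((μ n : ℂ) * cexp (2 * π * I * n * x)))
      (((√l : ℝ) : ℂ) / (r : ℂ) ^ 2 * ser (al a) r) := by
    have h1 := (ser_summable (al_le ha) hr).hasSum.mul_left (((√l : ℝ) : ℂ) / (r : ℂ) ^ 2)
    refine HasSum.congr_fun h1 (fun n => ?_)
    rcases Nat.eq_zero_or_pos n with rfl | hn
    · simp
    have hn' : (0 : ℝ) < n := by exact_mod_cast hn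
    have h2 := sqrt_ne hn'
    have h3 : (n : ℂ) = ((√n : ℝ) : ℂ) * ((√n : ℝ) : ℂ) := by
      exact_mod_cast (Real.mul_self_sqrt hn'.le).symm
    have hr' : (r : ℂ) ≠ 0 := by exact_mod_cast hr.ne'
    have hpi : (π : ℂ) ≠ 0 := by exact_mod_cast Real.pi_ne_zero
    have h4 : cexp (-(a * (((√n * r : ℝ) : ℂ)) ^ 2)) =
        cexp (-((l * n : ℝ) : ℂ)) * cexp (2 * π * I * n * x) := by
      rw [← Complex.exp_add]
      congr 1
      rw [hl, hx]
      push_cast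
      conv_lhs => rw [← Complex.re_add_im a, mul_pow, sq ((√n : ℝ) : ℂ), ← h3]
      field_simp
      ring
    have h5 : κ * ((l * n : ℝ) : ℂ) = a * (((√n * r : ℝ) : ℂ)) ^ 2 := by
      rw [hl, hκ]
      push_cast
      rw [mul_pow, sq ((√n : ℝ) : ℂ), ← h3]
      field_simp
    simp only [f, al]
    rw [h4, h5, Real.sqrt_mul hl0.le]
    generalize a * (((√n * r : ℝ) : ℂ)) ^ 2 - 1 / 2 = Y
    push_cast
    field_simp
  have hlim : Tendsto (fun n : ℕ => f (l * n) *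
      ∑ k ∈ Finset.Icc 0 n, (μ k : ℂ) * cexp (2 * π * I * k * x)) atTop (𝓝 0) := by
    have h1 : Tendsto (fun n : ℕ => l * n) atTop atTop :=
      tendsto_natCast_atTop_atTop.const_mul_atTop hl0
    have h2 := ((Real.tendsto_pow_mul_exp_neg_atTop_nhds_zero 3).comp h1).const_mul
      ((‖κ‖ + 1) / l)
    rw [mul_zero] at h2
    refine squeeze_zero_norm' ?_ h2
    filter_upwards [h1.eventually (eventually_ge_atTop 1)] with n hn
    have h3 := SS_triv x n
    rw [norm_mul]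
    set v := l * n with hv
    have h4 : ‖f v‖ ≤ v * ((‖κ‖ + 1) * v) * Real.exp (-v) := by
      simp only [f]
      rw [norm_mul, norm_mul, Complex.norm_real, Real.norm_of_nonneg (Real.sqrt_nonneg _),
        Complex.norm_exp, neg_re, ofReal_re]
      gcongr
      · rw [Real.sqrt_le_left (by linarith)]; nlinarith
      · refine (norm_sub_le _ _).trans ?_
        simp only [norm_mul, norm_div, Complex.norm_real,
          Real.norm_of_nonneg (by linarith : 0 ≤ v), Complex.norm_ofNat, norm_one]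
        nlinarith
    calc ‖f v‖ * ‖SS x n‖ ≤ v * ((‖κ‖ + 1) * v) * Real.exp (-v) * n :=
          mul_le_mul h4 h3 (norm_nonneg _) (by positivity)
      _ = _ := by
          simp only [Function.comp, ← hv]
          have : (n : ℝ) = v / l := by rw [hv]; field_simp
          rw [this]; field_simp
  have key := abel_scaled (fun n => (μ n : ℂ) * cexp (2 * π * I * n * x)) (by simp) hf hf'
    (B := fun v => ‖κ‖ / √l * ((1 + v) ^ 2 * Real.exp (-v) * σ v)) (hi.const_mul _) hl0 ?_ hlim hsum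
  · rw [integral_const_mul, norm_mul, norm_div, norm_pow, Complex.norm_real, Complex.norm_real,
      Real.norm_of_nonneg (Real.sqrt_nonneg _), Real.norm_of_nonneg hr.le] at key
    have hs := Real.sqrt_pos.2 hl0
    have h2 : √l * √l = a.re * r ^ 2 := Real.mul_self_sqrt hl0.le
    calc ‖ser (al a) r‖ = r ^ 2 / √l * (√l / r ^ 2 * ‖ser (al a) r‖) := by field_simp
      _ ≤ r ^ 2 / √l * (‖κ‖ / √l * ∫ v in Ioi 0, (1 + v) ^ 2 * Real.exp (-v) * σ v) :=
          mul_le_mul_of_nonneg_left key (by positivity)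
      _ = r ^ 2 / (√l * √l) * ‖κ‖ * ∫ v in Ioi 0, (1 + v) ^ 2 * Real.exp (-v) * σ v := by
          field_simp
      _ = _ := by rw [h2, hκn]; field_simp
  · intro v hv
    have hs := Real.sqrt_pos.2 hl0
    have hs2 := Real.sqrt_pos.2 hv
    calc _ ≤ (‖κ‖ * (1 + v) ^ 2 / √v * Real.exp (-v)) * (σ v * √(v / l)) :=
          mul_le_mul (hnf' v hv) (hσ v hv) (norm_nonneg _) (by positivity)
      _ = _ := by rw [Real.sqrt_div hv.le]; field_simp

theorem T_bound {b : ℂ} (hb : 0 < b.re) {C₀ : ℝ} (hC : 0 ≤ C₀)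
    (h : ∀ N : ℕ, ‖SS 0 N‖ ≤ C₀ * √N) :
    ∃ A : ℝ, ∀ r, 0 < r → ‖ser (fun ρ => ta b ρ⁻¹) r‖ ≤ A := by
  let f : ℝ → ℂ := fun v => (((√v : ℝ) : ℂ)⁻¹) ^ 3 * cexp (-(b * ((√v : ℝ) : ℂ)⁻¹))
  let f' : ℝ → ℂ := fun v => (b * ((√v : ℝ) : ℂ)⁻¹ - 3) / 2 * (((√v : ℝ) : ℂ)⁻¹) ^ 5 *
    cexp (-(b * ((√v : ℝ) : ℂ)⁻¹))
  have hf : ∀ v, 0 < v → HasDerivAt f (f' v) v := by
    intro v hv
    have h2 := sqrt_ne hv
    have h0 := (hd_sqrt hv).inv h2
    have h1 := (h0.pow 3).mul (h0.const_mul b).neg.cexp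
    refine HasDerivAt.congr_deriv h1 (Eq.symm ?_)
    simp only [f', Pi.inv_apply, Pi.pow_apply, Pi.neg_apply, Nat.add_one_sub_one, Nat.cast_ofNat]
    generalize cexp (-(b * ((√v : ℝ) : ℂ)⁻¹)) = E
    generalize ((√v : ℝ) : ℂ) = y at *
    field_simp
    ring
  have hf' : ContinuousOn f' (Ioi 0) := by
    have h1 : ContinuousOn (fun v : ℝ => ((√v : ℝ) : ℂ)⁻¹) (Ioi 0) :=
      cont_sqrt.continuousOn.inv₀ fun v hv => sqrt_ne hv
    simp only [f']
    fun_prop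
  set D := 3 + ‖b‖ * (1 / b.re) + 3 * (24 / b.re ^ 4) + ‖b‖ * (120 / b.re ^ 5) with hD
  have hnf' : ∀ v, 0 < v → ‖f' v‖ * √v ≤ D * (1 + v ^ 2)⁻¹ := by
    intro v hv
    have hs := Real.sqrt_pos.2 hv
    set y := (√v)⁻¹ with hy
    have hy0 : 0 < y := by positivity
    have e1 : ((√v : ℝ) : ℂ)⁻¹ = (y : ℂ) := by rw [hy]; push_cast; rfl
    have e2 : √v = y⁻¹ := by rw [hy, inv_inv]
    have e3 : v = y⁻¹ * y⁻¹ := by rw [← e2]; exact (Real.mul_self_sqrt hv.le).symm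
    have h1 : ‖f' v‖ ≤ (‖b‖ * y + 3) * y ^ 5 * Real.exp (-(b.re * y)) := by
      simp only [f', e1]
      rw [norm_mul, norm_mul, norm_pow, Complex.norm_real, Real.norm_of_nonneg hy0.le,
        Complex.norm_exp, neg_re, Complex.re_mul_ofReal]
      gcongr
      rw [norm_div, Complex.norm_ofNat]
      have := norm_sub_le (b * y) 3
      rw [norm_mul, Complex.norm_real, Real.norm_of_nonneg hy0.le, Complex.norm_ofNat] at this
      linarith [norm_nonneg (b * y - 3)]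
    have k0 := pow_exp_le 0 hb hy0.le
    have k1 := pow_exp_le 1 hb hy0.le
    have k4 := pow_exp_le 4 hb hy0.le
    have k5 := pow_exp_le 5 hb hy0.le
    simp only [Nat.factorial, Nat.succ_eq_add_one, Nat.reduceAdd, Nat.reduceMul, mul_one,
      Nat.cast_ofNat, pow_zero, pow_one, Nat.cast_one, div_one, one_mul, zero_add] at k0 k1 k4 k5
    rw [← div_eq_mul_inv, le_div_iff₀ (by positivity)]
    calc ‖f' v‖ * √v * (1 + v ^ 2)
        ≤ (‖b‖ * y + 3) * y ^ 5 * Real.exp (-(b.re * y)) * √v * (1 + v ^ 2) := by gcongr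
      _ = 3 * Real.exp (-(b.re * y)) + ‖b‖ * (y * Real.exp (-(b.re * y))) +
          3 * (y ^ 4 * Real.exp (-(b.re * y))) + ‖b‖ * (y ^ 5 * Real.exp (-(b.re * y))) := by
          rw [e2]
          conv_lhs => rw [e3]
          field_simp
          ring
      _ ≤ D := by
          rw [hD]
          have := mul_le_mul_of_nonneg_left k1 (norm_nonneg b)
          have := mul_le_mul_of_nonneg_left k5 (norm_nonneg b)
          linarith
  refine ⟨C₀ * D * ∫ v in Ioi (0 : ℝ), (1 + v ^ 2)⁻¹, fun r hr => ?_⟩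
  have hl0 : 0 < r ^ 2 := by positivity
  have hsq : ∀ n : ℕ, √(r ^ 2 * n) = √n * r := fun n => by
    rw [Real.sqrt_mul (sq_nonneg r), Real.sqrt_sq hr.le, mul_comm]
  have hsum : HasSum (fun n : ℕ => f (r ^ 2 * n) * ((μ n : ℂ) * cexp (2 * π * I * n * (0 : ℝ))))
      ((r : ℂ)⁻¹ * ser (fun ρ => ta b ρ⁻¹) r) := by
    have h1 := (ser_summable (ta_le hb) hr).hasSum.mul_left ((r : ℂ)⁻¹)
    refine HasSum.congr_fun h1 (fun n => ?_)
    simp only [f, hsq, ta, ofReal_zero, mul_zero, Complex.exp_zero]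
    push_cast
    ring
  have hlim : Tendsto (fun n : ℕ => f (r ^ 2 * n) *
      ∑ k ∈ Finset.Icc 0 n, (μ k : ℂ) * cexp (2 * π * I * k * (0 : ℝ))) atTop (𝓝 0) := by
    have h1 : Tendsto (fun n : ℕ => (√(n : ℝ))⁻¹) atTop (𝓝 0) :=
      (Real.tendsto_sqrt_atTop.comp tendsto_natCast_atTop_atTop).inv_tendsto_atTop
    have h2 := h1.const_mul (r⁻¹ ^ 3)
    rw [mul_zero] at h2
    refine squeeze_zero_norm' ?_ h2
    filter_upwards [eventually_gt_atTop 0] with n hn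
    have hn' : (0 : ℝ) < n := by exact_mod_cast hn
    have hs := Real.sqrt_pos.2 hn'
    have h3 := SS_triv 0 n
    rw [norm_mul]
    have h4 : ‖f (r ^ 2 * n)‖ ≤ (√n * r)⁻¹ ^ 3 := by
      simp only [f, hsq]
      rw [norm_mul, norm_pow, norm_inv, Complex.norm_real, Real.norm_of_nonneg (by positivity),
        Complex.norm_exp, ← Complex.ofReal_inv, neg_re, Complex.re_mul_ofReal]
      refine mul_le_of_le_one_right (by positivity) (Real.exp_le_one_iff.2 ?_)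
      have : 0 ≤ b.re * (√n * r)⁻¹ := by positivity
      linarith
    calc ‖f (r ^ 2 * n)‖ * ‖SS 0 n‖ ≤ (√n * r)⁻¹ ^ 3 * n :=
          mul_le_mul h4 h3 (norm_nonneg _) (by positivity)
      _ = (√n * r)⁻¹ ^ 3 * (√n * √n) := by rw [Real.mul_self_sqrt hn'.le]
      _ = _ := by field_simp
  have key := abel_scaled (fun n => (μ n : ℂ) * cexp (2 * π * I * n * (0 : ℝ))) (by simp) hf hf'
    (B := fun v => C₀ * D / r * (1 + v ^ 2)⁻¹)
    (integrable_inv_one_add_sq.integrableOn.const_mul _) hl0 ?_ hlim hsum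
  · rw [integral_const_mul, norm_mul, norm_inv, Complex.norm_real, Real.norm_of_nonneg hr.le] at key
    calc _ = r * (r⁻¹ * ‖ser (fun ρ => ta b ρ⁻¹) r‖) := by field_simp
      _ ≤ r * (C₀ * D / r * ∫ v in Ioi (0 : ℝ), (1 + v ^ 2)⁻¹) :=
          mul_le_mul_of_nonneg_left key hr.le
      _ = _ := by field_simp
  · intro v hv
    have h1 : ‖SS 0 ⌊v / r ^ 2⌋₊‖ ≤ C₀ * (√v / r) := by
      refine (h _).trans (mul_le_mul_of_nonneg_left ?_ hC)
      refine (Real.sqrt_le_sqrt (Nat.floor_le (by positivity))).trans (le_of_eq ?_)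
      rw [Real.sqrt_div hv.le, Real.sqrt_sq hr.le]
    calc _ ≤ ‖f' v‖ * (C₀ * (√v / r)) := mul_le_mul_of_nonneg_left h1 (norm_nonneg _)
      _ = C₀ / r * (‖f' v‖ * √v) := by ring
      _ ≤ C₀ / r * (D * (1 + v ^ 2)⁻¹) := mul_le_mul_of_nonneg_left (hnf' v hv) (by positivity)
      _ = _ := by ring

end

end H682Z
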