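import Mathlib

/-! Carleman type lemma, part 1: kernel, duality, local structure. -/

open MeasureTheory Filter Topology Complex Set
open scoped FourierTransform Real

namespace H682Z

noncomputable section

/-- two-sided Laplace transform -/
def lt (F : ℝ → ℂ) (w : ℂ) : ℂ := ∫ u : ℝ, cexp (-w * u) * F u

theorem mellin_eq_lt (p : ℝ → ℂ) (w : ℂ) :
    mellin p w = lt (fun u => p (Real.exp (-u))) w := by
  rw [mellin_eq_fourier, Real.fourier_real_eq_integral_exp_smul, lt]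
  congr 1
  ext u
  simp only [smul_eq_mul, Complex.real_smul]
  rw [← mul_assoc, Complex.ofReal_exp, ← Complex.exp_add]
  congr 2
  have hpi : (π : ℂ) ≠ 0 := by exact_mod_cast Real.pi_ne_zero
  conv_rhs => rw [← Complex.re_add_im w]
  push_cast
  field_simp
  ring

theorem exists_kernel : ∃ φ : ℝ → ℂ, Continuous φ ∧ (∀ ξ, 1 < |ξ| → φ ξ = 0) ∧ Integrable φ ∧
    Integrable (𝓕 φ) ∧ ∫ u, 𝓕 φ u = 1 := by
  let b : ContDiffBump (0 : ℝ) := ⟨1 / 2, 1, by norm_num, by norm_num⟩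
  have h1 : HasCompactSupport (fun x : ℝ => (b x : ℂ)) :=
    b.hasCompactSupport.comp_left (g := fun x : ℝ => (x : ℂ)) (by simp)
  have h2 : ContDiff ℝ ((⊤ : ℕ∞) : WithTop ℕ∞) (fun x : ℝ => (b x : ℂ)) :=
    Complex.ofRealCLM.contDiff.comp b.contDiff
  let f : SchwartzMap ℝ ℂ := h1.toSchwartzMap h2
  have hf : (f : ℝ → ℂ) = fun x : ℝ => (b x : ℂ) := rfl
  have hint : Integrable (𝓕 (f : ℝ → ℂ)) := by
    have := (𝓕 f : SchwartzMap ℝ ℂ).integrable (μ := volume)
    rwa [SchwartzMap.fourier_coe] at this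
  refine ⟨f, f.continuous, ?_, f.integrable, hint, ?_⟩
  · intro ξ hξ
    rw [hf]
    have : b ξ = 0 := b.zero_of_le_dist (by simpa [b] using hξ.le)
    simp [this]
  · have h3 := (f.integrable (μ := volume)).fourierInv_fourier_eq hint (v := 0)
      f.continuous.continuousAt
    rw [Real.fourierInv_eq'] at h3
    have h4 : b 0 = 1 := b.one_of_mem_closedBall (by simp [b])
    simpa [hf, h4] using h3

theorem duality {φ F : ℝ → ℂ} (hφ : Integrable φ) (hF : Integrable F) {T : ℝ} (hT : 0 < T) (v : ℝ) :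
    ∫ u, F (v + u / T) * 𝓕 φ u =
      ∫ ξ : ℝ, (T * cexp (2 * π * ξ * T * v * I) * lt F (2 * π * ξ * T * I)) * φ ξ := by
  have hG : Integrable (fun u => F (v + u / T)) :=
    (hF.comp_add_left v).comp_div hT.ne'
  have h1 := VectorFourier.integral_fourierIntegral_smul_eq_flip (L := innerₗ ℝ)
      Real.continuous_fourierChar continuous_inner hG hφ
  have h2 : ∫ u, F (v + u / T) * 𝓕 φ u = ∫ ξ, 𝓕 (fun u => F (v + u / T)) ξ * φ ξ := by
    simpa using! h1.symm
  rw [h2]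
  congr 1
  ext ξ
  congr 1
  rw [Real.fourier_real_eq_integral_exp_smul]
  have h3 := Measure.integral_comp_div
    (fun y : ℝ => cexp (-(2 * π * ξ * T * I) * y) * F (v + y)) T
  have h4 := integral_add_left_eq_self (μ := (volume : Measure ℝ))
    (fun x : ℝ => cexp (2 * π * ξ * T * v * I) * (cexp (-(2 * π * ξ * T * I) * x) * F x)) v
  have h5 : ∫ x : ℝ, cexp (2 * π * ξ * T * v * I) * (cexp (-(2 * π * ξ * T * I) * x) * F x) =
      cexp (2 * π * ξ * T * v * I) * lt F (2 * π * ξ * T * I) := integral_const_mul _ _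
  have hT' : (T : ℂ) ≠ 0 := by exact_mod_cast hT.ne'
  rw [abs_of_pos hT, Complex.real_smul] at h3
  rw [mul_assoc (T : ℂ), ← h5, ← h4]
  calc ∫ u : ℝ, cexp (((-2 * π * u * ξ : ℝ) : ℂ) * I) • F (v + u / T)
      = ∫ u : ℝ, cexp (-(2 * π * ξ * T * I) * ((u / T : ℝ) : ℂ)) * F (v + u / T) := by
        congr 1
        ext u
        rw [smul_eq_mul]
        congr 2
        push_cast
        field_simp
    _ = _ := by
        rw [h3]
        congr 2
        ext y
        rw [← mul_assoc, ← Complex.exp_add]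
        congr 2
        push_cast
        ring

/-- the local structure at a point of the imaginary axis -/
theorem local_pole {P Q X W : ℂ → ℂ} {w₀ : ℂ} (h0 : w₀.re = 0) (hX : AnalyticAt ℂ X w₀)
    (hX0 : ∀ᶠ w in 𝓝[≠] w₀, X w ≠ 0) (hW : AnalyticAt ℂ W w₀)
    (hP : ∀ᶠ w in 𝓝 w₀, 0 < w.re → X w * P w = W w)
    (hQ : ∀ᶠ w in 𝓝 w₀, w.re < 0 → X w * Q w = W w) {A : ℝ}
    (hA : ∀ ε : ℝ, 0 < ε → ε < 1 → ‖P (w₀ + ε)‖ ≤ A / ε) :
    ∃ (c : ℂ) (H : ℂ → ℂ), AnalyticAt ℂ H w₀ ∧ ∀ᶠ w in 𝓝 w₀,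
      (0 < w.re → P w = c / (w - w₀) + H w) ∧ (w.re < 0 → Q w = c / (w - w₀) + H w) := by
  have hm : MeromorphicAt (fun w => (w - w₀) * (W w / X w)) w₀ := by
    refine MeromorphicAt.mul ?_ (hW.meromorphicAt.div hX.meromorphicAt)
    exact (analyticAt_id.sub analyticAt_const).meromorphicAt
  rw [eventually_nhdsWithin_iff] at hX0
  have hnn : 0 ≤ meromorphicOrderAt (fun w => (w - w₀) * (W w / X w)) w₀ := by
    by_contra hneg
    have h1 := tendsto_cobounded_of_meromorphicOrderAt_neg (not_le.1 hneg)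
    rw [← tendsto_norm_atTop_iff_cobounded] at h1
    have h2 : Tendsto (fun ε : ℝ => w₀ + ε) (𝓝[>] 0) (𝓝 w₀) := by
      have : Tendsto (fun ε : ℝ => w₀ + ε) (𝓝 0) (𝓝 (w₀ + (0 : ℝ))) :=
        (continuous_const.add Complex.continuous_ofReal).tendsto 0
      simpa using this.mono_left nhdsWithin_le_nhds
    have h3 : Tendsto (fun ε : ℝ => w₀ + ε) (𝓝[>] 0) (𝓝[≠] w₀) := by
      refine tendsto_nhdsWithin_iff.2 ⟨h2, ?_⟩
      filter_upwards [self_mem_nhdsWithin] with ε hε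
      have : (0 : ℝ) < ε := hε
      simp [this.ne']
    have h4 := (h1.comp h3).eventually (eventually_gt_atTop A)
    have h5 : ∀ᶠ ε : ℝ in 𝓝[>] 0, ε < 1 := nhdsWithin_le_nhds (Iio_mem_nhds one_pos)
    obtain ⟨ε, ⟨⟨⟨e1, e2⟩, e3⟩, e4⟩, e5⟩ :=
      (((((h4.and h5).and (h2.eventually hP)).and (h2.eventually hX0)).and
        self_mem_nhdsWithin).exists)
    have e6 : (0 : ℝ) < ε := e5
    have e7 : X (w₀ + ε) ≠ 0 := e4 (by simp [e6.ne'])
    have e8 := e3 (by simp [h0, e6])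
    have e9 : W (w₀ + ε) / X (w₀ + ε) = P (w₀ + ε) := by
      rw [← e8]; field_simp
    simp only [Function.comp, e9, add_sub_cancel_left, norm_mul, Complex.norm_real,
      Real.norm_eq_abs, abs_of_pos e6] at e1
    have := hA ε e6 e2
    rw [le_div_iff₀ e6] at this
    linarith
  obtain ⟨g, hg, hg2⟩ := hm.meromorphicOrderAt_nonneg_iff.1 hnn
  refine ⟨g w₀, dslope g w₀, ?_, ?_⟩
  · obtain ⟨pp, hpp⟩ := hg
    exact ⟨_, hpp.has_fpower_series_dslope_fslope⟩
  · rw [EventuallyEq, eventually_nhdsWithin_iff] at hg2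
    filter_upwards [hg2, hP, hQ, hX0] with w e1 e2 e3 e4
    have key : ∀ z : ℂ, w ≠ w₀ → X w * z = W w → z = g w₀ / (w - w₀) + dslope g w₀ w := by
      intro z hw hz
      have e5 := e1 hw
      have e6 := e4 hw
      have e7 : w - w₀ ≠ 0 := sub_ne_zero.2 hw
      rw [dslope_of_ne _ hw, slope_def_field, ← e5, ← hz]
      field_simp
      ring
    refine ⟨fun h => key _ ?_ (e2 h), fun h => key _ ?_ (e3 h)⟩
    · rintro rfl; exact absurd h0 h.ne'
    · rintro rfl; exact absurd h0 h.ne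

end

end H682Z
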