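import Pool.Agent.H682Z.Carl1
import Pool.Agent.Helper352.Kron

/-! Carleman type lemma, part 2. -/

open MeasureTheory Filter Topology Complex Set
open scoped FourierTransform Real

namespace H682Z

noncomputable section

theorem two_sided {ε : ℝ} (hε : 0 < ε) {z : ℂ} (hz : z.re = 0) :
    Integrable (fun u : ℝ => cexp (-(ε * |u| : ℝ) + z * u)) ∧
    ∫ u : ℝ, cexp (-(ε * |u| : ℝ) + z * u) = 1 / (ε - z) - 1 / (-ε - z) := by
  have h1 : (z - ε).re < 0 := by simp [hz, hε]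
  have h2 : 0 < (z + ε).re := by simp [hz, hε]
  have e1 : EqOn (fun u : ℝ => cexp ((z - ε) * u)) (fun u : ℝ => cexp (-(ε * |u| : ℝ) + z * u))
      (Ioi 0) := by
    intro u hu
    have : |u| = u := abs_of_pos hu
    simp only [this]
    congr 1; push_cast; ring
  have e2 : EqOn (fun u : ℝ => cexp ((z + ε) * u)) (fun u : ℝ => cexp (-(ε * |u| : ℝ) + z * u))
      (Iic 0) := by
    intro u hu
    have : |u| = -u := abs_of_nonpos hu
    simp only [this]
    congr 1; push_cast; ring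
  have i1 := (integrableOn_exp_mul_complex_Ioi h1 0).congr_fun e1 measurableSet_Ioi
  have i2 := (integrableOn_exp_mul_complex_Iic h2 0).congr_fun e2 measurableSet_Iic
  refine ⟨?_, ?_⟩
  · have := i2.union i1
    rwa [Iic_union_Ioi, integrableOn_univ] at this
  · rw [← intervalIntegral.integral_Iic_add_Ioi i2 i1,
      ← setIntegral_congr_fun measurableSet_Ioi e1, ← setIntegral_congr_fun measurableSet_Iic e2,
      integral_exp_mul_complex_Ioi h1, integral_exp_mul_complex_Iic h2]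
    have h3 : z - ε ≠ 0 := fun h => by rw [h] at h1; simp at h1
    have h4 : z + ε ≠ 0 := fun h => by rw [h] at h2; simp at h2
    have h5 : (ε : ℂ) - z ≠ 0 := fun h => h3 (by linear_combination -h)
    have h6 : -(ε : ℂ) - z ≠ 0 := fun h => h4 (by linear_combination -h)
    simp only [ofReal_zero, mul_zero, Complex.exp_zero]
    field_simp
    ring

theorem int_abs {ε : ℝ} (hε : 0 < ε) :
    Integrable (fun u : ℝ => Real.exp (-(ε * |u|))) ∧ ∫ u : ℝ, Real.exp (-(ε * |u|)) = 2 / ε := by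
  obtain ⟨h1, h2⟩ := two_sided hε (z := 0) (by simp)
  have e : (fun u : ℝ => cexp (-(ε * |u| : ℝ) + 0 * u)) =
      fun u : ℝ => ((Real.exp (-(ε * |u|)) : ℝ) : ℂ) := by
    ext u; simp
  rw [e] at h1 h2
  refine ⟨h1.re.congr (Eventually.of_forall fun u => Complex.ofReal_re _), ?_⟩
  rw [integral_complex_ofReal] at h2
  have : (((∫ u : ℝ, Real.exp (-(ε * |u|))) : ℝ) : ℂ) = ((2 / ε : ℝ) : ℂ) := by
    refine Eq.trans h2 ?_
    push_cast
    rw [sub_zero, sub_zero, div_neg]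
    ring
  exact_mod_cast this

theorem damp_f {f : ℝ → ℂ} {A : ℝ} (hf : ∀ u, ‖f u‖ ≤ A ∧ ‖f u‖ ≤ A * Real.exp (2 * u))
    {w : ℂ} (_h0 : 0 < w.re) (h1 : w.re < 1) (u : ℝ) :
    ‖cexp (-w * u) * f u‖ ≤ A * Real.exp (-(w.re * |u|)) := by
  have hA : 0 ≤ A := (norm_nonneg _).trans (hf 0).1
  rw [norm_mul, Complex.norm_exp]
  have e : (-w * u).re = -(w.re * u) := by simp
  rw [e]
  rcases le_total 0 u with hu | hu
  · rw [abs_of_nonneg hu, mul_comm]
    exact mul_le_mul_of_nonneg_right (hf u).1 (Real.exp_pos _).le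
  · rw [abs_of_nonpos hu]
    calc Real.exp (-(w.re * u)) * ‖f u‖ ≤ Real.exp (-(w.re * u)) * (A * Real.exp (2 * u)) :=
          mul_le_mul_of_nonneg_left (hf u).2 (Real.exp_pos _).le
      _ = A * Real.exp (-(w.re * u) + 2 * u) := by rw [Real.exp_add]; ring
      _ ≤ _ := by
          refine mul_le_mul_of_nonneg_left (Real.exp_le_exp.2 ?_) hA
          nlinarith

theorem damp_g {g : ℝ → ℂ} {A : ℝ} (hg : ∀ u, ‖g u‖ ≤ A ∧ ‖g u‖ ≤ A * Real.exp (-(2 * u)))
    {w : ℂ} (h0 : 0 < w.re) (h1 : w.re < 1) (u : ℝ) :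
    ‖cexp (w * u) * g u‖ ≤ A * Real.exp (-(w.re * |u|)) := by
  have := damp_f (f := fun u => g (-u)) (A := A)
    (fun u => ⟨(hg _).1, by simpa using (hg (-u)).2⟩) h0 h1 (-u)
  simpa using this

theorem norm_lt_le {f : ℝ → ℂ} {A : ℝ} (hf : ∀ u, ‖f u‖ ≤ A ∧ ‖f u‖ ≤ A * Real.exp (2 * u))
    {w : ℂ} (h0 : 0 < w.re) (h1 : w.re < 1) : ‖lt f w‖ ≤ 2 * A / w.re := by
  obtain ⟨i1, i2⟩ := int_abs h0
  refine (norm_integral_le_of_norm_le (i1.const_mul A)
    (Eventually.of_forall (damp_f hf h0 h1))).trans (le_of_eq ?_)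
  rw [integral_const_mul, i2]; ring

/-- continuity across the axis at the height `t` -/
def Loc (P Q : ℂ → ℂ) (t : ℝ) : Prop :=
  ∃ H : ℂ → ℂ, ContinuousAt H (t * I) ∧ ∀ᶠ w in 𝓝 ((t : ℂ) * I),
    (0 < w.re → P w = H w) ∧ (w.re < 0 → Q w = H w)

theorem jump_small {P Q : ℂ → ℂ} {K : Set ℝ} (hK : IsCompact K) (h : ∀ t ∈ K, Loc P Q t)
    {η : ℝ} (hη : 0 < η) :
    ∀ᶠ ε : ℝ in 𝓝 0, ∀ t ∈ K, 0 < ε → ‖P (ε + t * I) - Q (-ε + t * I)‖ ≤ η := by
  refine hK.eventually_forall_of_forall_eventually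
    (P := fun (ε t : ℝ) => 0 < ε → ‖P (ε + t * I) - Q (-ε + t * I)‖ ≤ η) ?_
  intro t ht
  obtain ⟨H, hH, hE⟩ := h t ht
  have h1 : Tendsto (fun z : ℝ × ℝ => (z.1 : ℂ) + z.2 * I) (𝓝 (0, t)) (𝓝 (t * I)) := by
    have : Continuous (fun z : ℝ × ℝ => (z.1 : ℂ) + z.2 * I) := by fun_prop
    simpa using this.tendsto (0, t)
  have h2 : Tendsto (fun z : ℝ × ℝ => -(z.1 : ℂ) + z.2 * I) (𝓝 (0, t)) (𝓝 (t * I)) := by
    have : Continuous (fun z : ℝ × ℝ => -(z.1 : ℂ) + z.2 * I) := by fun_prop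
    simpa using this.tendsto (0, t)
  have h3 := ((hH.tendsto.comp h1).sub (hH.tendsto.comp h2)).norm
  rw [sub_self, norm_zero] at h3
  filter_upwards [h3.eventually (ge_mem_nhds hη), h1.eventually hE, h2.eventually hE]
    with z e1 e2 e3 hz
  rw [e2.1 (by simpa using hz), e3.2 (by simpa using hz)]
  exact e1

theorem exists_poles {P Q : ℂ → ℂ} {K : Set ℝ} (hK : IsCompact K)
    (h : ∀ t : ℝ, ∃ (c : ℂ) (H : ℂ → ℂ), AnalyticAt ℂ H (t * I) ∧ ∀ᶠ w in 𝓝 ((t : ℂ) * I),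
      (0 < w.re → P w = c / (w - t * I) + H w) ∧ (w.re < 0 → Q w = c / (w - t * I) + H w)) :
    ∃ (τ : Finset ℝ) (c : ℝ → ℂ), ∀ t ∈ K,
      Loc (fun w => P w - ∑ γ ∈ τ, c γ / (w - γ * I)) (fun w => Q w - ∑ γ ∈ τ, c γ / (w - γ * I)) t := by
  classical
  choose c H hH hE using h
  have hcont : Continuous (fun s : ℝ => (s : ℂ) * I) := by fun_prop
  obtain ⟨τ, -, hτ⟩ := hK.elim_nhds_subcover
    (fun t => {s : ℝ | AnalyticAt ℂ (H t) (s * I) ∧ ∀ᶠ w in 𝓝 ((s : ℂ) * I),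
      (0 < w.re → P w = c t / (w - t * I) + H t w) ∧ (w.re < 0 → Q w = c t / (w - t * I) + H t w)})
    (fun t _ => (hcont.tendsto t).eventually
      ((hH t).eventually_analyticAt.and (hE t).eventually_nhds))
  have hne : ∀ s γ : ℝ, s ≠ γ → ContinuousAt (fun w : ℂ => c γ / (w - γ * I)) (s * I) := by
    intro s γ hs
    refine continuousAt_const.div (by fun_prop) ?_
    rw [← sub_mul]
    refine mul_ne_zero ?_ I_ne_zero
    exact_mod_cast sub_ne_zero.2 hs
  refine ⟨τ, c, fun t ht => ?_⟩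
  by_cases htτ : t ∈ τ
  · refine ⟨fun w => H t w - ∑ γ ∈ τ.erase t, c γ / (w - γ * I), ?_, ?_⟩
    · refine (hH t).continuousAt.sub ?_
      exact tendsto_finsetSum _ fun γ hγ => hne t γ (Finset.ne_of_mem_erase hγ).symm
    · filter_upwards [hE t] with w hw
      rw [← Finset.add_sum_erase τ _ htτ]
      exact ⟨fun h => by rw [hw.1 h]; ring, fun h => by rw [hw.2 h]; ring⟩
  · have := hτ ht
    simp only [mem_iUnion, mem_ofPred_eq] at this
    obtain ⟨s, hs, h1, h2⟩ := this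
    refine ⟨fun w => c s / (w - s * I) + H s w - ∑ γ ∈ τ, c γ / (w - γ * I), ?_, ?_⟩
    · refine ((hne t s ?_).add h1.continuousAt).sub ?_
      · rintro rfl; exact htτ hs
      · refine tendsto_finsetSum _ fun γ hγ => hne t γ ?_
        rintro rfl; exact htτ hγ
    · filter_upwards [h2] with w hw
      exact ⟨fun h => by rw [hw.1 h], fun h => by rw [hw.2 h]⟩

theorem recur (τ : Finset ℝ) : ∃ t : ℕ → ℝ, Tendsto t atTop atTop ∧
    ∀ γ ∈ τ, Tendsto (fun k => cexp (γ * t k * I)) atTop (𝓝 1) := by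
  classical
  have h := fun k : ℕ => Pool.Agent.Helper352.kronecker (ι := τ) (fun γ => γ / (2 * π)) (fun _ => 0)
    (fun c _ => ⟨0, by simp⟩) (1 / ((k : ℝ) + 1)) (by positivity) k
  choose t ht1 ht2 using h
  refine ⟨t, tendsto_atTop_mono (fun k => (ht1 k).le) tendsto_natCast_atTop_atTop, fun γ hγ => ?_⟩
  choose n hn using fun k => ht2 k ⟨γ, hγ⟩
  have h1 : Tendsto (fun k => t k * (γ / (2 * π)) - 0 - n k) atTop (𝓝 0) := by
    rw [tendsto_zero_iff_abs_tendsto_zero]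
    exact squeeze_zero (fun k => abs_nonneg _) (fun k => (hn k).le)
      tendsto_one_div_add_atTop_nhds_zero_nat
  have h2 : Continuous (fun x : ℝ => cexp (x * (2 * π * I))) := by fun_prop
  have h3 := (h2.tendsto 0).comp h1
  simp only [ofReal_zero, zero_mul, Complex.exp_zero] at h3
  refine h3.congr fun k => ?_
  have hpi : (π : ℂ) ≠ 0 := by exact_mod_cast Real.pi_ne_zero
  simp only [Function.comp]
  rw [← mul_one (cexp _), ← Complex.exp_int_mul_two_pi_mul_I (n k), ← Complex.exp_add]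
  congr 1
  push_cast
  field_simp
  ring

end

end H682Z
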