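import Pool.Agent.H682Z.Carl2

/-! Carleman type lemma, part 3: the main statement. -/

open MeasureTheory Filter Topology Complex Set
open scoped FourierTransform Real

namespace H682Z

noncomputable section

/-- damped difference -/
def dmp (f g : ℝ → ℂ) (τ : Finset ℝ) (c : ℝ → ℂ) (ε : ℝ) (u : ℝ) : ℂ :=
  cexp (-(ε : ℂ) * u) * f u - cexp ((ε : ℂ) * u) * g u -
    ∑ γ ∈ τ, c γ * cexp (-(ε * |u| : ℝ) + (γ * I) * u)

theorem dmp_facts {f g : ℝ → ℂ} (hfc : Continuous f) (hgc : Continuous g) {A : ℝ}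
    (hf : ∀ u, ‖f u‖ ≤ A ∧ ‖f u‖ ≤ A * Real.exp (2 * u))
    (hg : ∀ u, ‖g u‖ ≤ A ∧ ‖g u‖ ≤ A * Real.exp (-(2 * u))) (τ : Finset ℝ) (c : ℝ → ℂ)
    {ε : ℝ} (h0 : 0 < ε) (h1 : ε < 1) :
    Integrable (dmp f g τ c ε) ∧ (∀ u, ‖dmp f g τ c ε u‖ ≤ 2 * A + ∑ γ ∈ τ, ‖c γ‖) ∧
    ∀ t : ℝ, lt (dmp f g τ c ε) (t * I) =
      (lt f (ε + t * I) - ∑ γ ∈ τ, c γ / ((ε + t * I) - γ * I)) -
      (lt g (-ε + t * I) - ∑ γ ∈ τ, c γ / ((-ε + t * I) - γ * I)) := by
  obtain ⟨i1, -⟩ := int_abs h0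
  have hA : 0 ≤ A := (norm_nonneg _).trans (hf 0).1
  have if1 : ∀ w : ℂ, w.re = ε → Integrable (fun u : ℝ => cexp (-w * u) * f u) := fun w hw => by
    refine (i1.const_mul A).mono' (by fun_prop) (Eventually.of_forall fun u => ?_)
    have := damp_f hf (w := w) (by rw [hw]; exact h0) (by rw [hw]; exact h1) u
    rwa [hw] at this
  have ig1 : ∀ w : ℂ, w.re = ε → Integrable (fun u : ℝ => cexp (w * u) * g u) := fun w hw => by
    refine (i1.const_mul A).mono' (by fun_prop) (Eventually.of_forall fun u => ?_)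
    have := damp_g hg (w := w) (by rw [hw]; exact h0) (by rw [hw]; exact h1) u
    rwa [hw] at this
  refine ⟨?_, ?_, ?_⟩
  · refine ((if1 ε (by simp)).sub (ig1 ε (by simp))).sub ?_
    exact integrable_finsetSum _ fun γ _ => (two_sided h0 (by simp)).1.const_mul _
  · intro u
    have e1 := damp_f hf (w := ε) (by simpa using h0) (by simpa using h1) u
    have e2 := damp_g hg (w := ε) (by simpa using h0) (by simpa using h1) u
    have e3 : Real.exp (-(ε * |u|)) ≤ 1 := Real.exp_le_one_iff.2 (by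
      have := mul_nonneg h0.le (abs_nonneg u); linarith)
    rw [ofReal_re] at e1 e2
    have e4 : A * Real.exp (-(ε * |u|)) ≤ A := mul_le_of_le_one_right hA e3
    have e5 : ‖∑ γ ∈ τ, c γ * cexp (-(ε * |u| : ℝ) + (γ * I) * u)‖ ≤ ∑ γ ∈ τ, ‖c γ‖ := by
      refine (norm_sum_le _ _).trans (Finset.sum_le_sum fun γ _ => ?_)
      rw [norm_mul, Complex.norm_exp]
      refine mul_le_of_le_one_right (norm_nonneg _) ?_
      simpa using e3
    unfold dmp
    refine (norm_sub_le _ _).trans (add_le_add ((norm_sub_le _ _).trans ?_) e5)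
    linarith
  · intro t
    have j1 := if1 (ε + t * I) (by simp)
    have j2 := ig1 (ε - t * I) (by simp)
    have j3 := fun γ : ℝ => two_sided h0 (z := γ * I - t * I) (by simp)
    have e : (fun u : ℝ => cexp (-(t * I) * u) * dmp f g τ c ε u) = fun u : ℝ =>
        cexp (-(ε + t * I) * u) * f u - cexp ((ε - t * I) * u) * g u -
          ∑ γ ∈ τ, c γ * cexp (-(ε * |u| : ℝ) + (γ * I - t * I) * u) := by
      ext u
      unfold dmp
      rw [mul_sub, mul_sub, Finset.mul_sum, ← mul_assoc, ← mul_assoc, ← Complex.exp_add,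
        ← Complex.exp_add]
      congr 1
      · congr 3 <;> ring
      · refine Finset.sum_congr rfl fun γ _ => ?_
        rw [mul_left_comm, ← Complex.exp_add]
        congr 2; ring
    have j4 : Integrable (fun u : ℝ =>
        cexp (-(ε + t * I) * u) * f u - cexp ((ε - t * I) * u) * g u) := j1.sub j2
    unfold lt
    rw [e, integral_sub j4 (integrable_finsetSum _ fun γ _ => (j3 γ).1.const_mul _),
      integral_sub j1 j2, integral_finsetSum _ fun γ _ => (j3 γ).1.const_mul _]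
    have e2 : ∀ γ ∈ τ, ∫ u : ℝ, c γ * cexp (-(ε * |u| : ℝ) + (γ * I - t * I) * u) =
        c γ / ((ε + t * I) - γ * I) - c γ / ((-ε + t * I) - γ * I) := by
      intro γ _
      rw [integral_const_mul, (j3 γ).2, mul_sub, mul_one_div, mul_one_div]
      congr 2 <;> ring
    rw [Finset.sum_congr rfl e2, Finset.sum_sub_distrib]
    have e3 : (fun u : ℝ => cexp ((ε - t * I) * u) * g u) =
        fun u : ℝ => cexp (-(-ε + t * I) * u) * g u := by
      ext u; congr 2; ring
    rw [e3]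
    ring

theorem vanish {f g : ℝ → ℂ} (hfc : Continuous f) (hgc : Continuous g) {A : ℝ}
    (hf : ∀ u, ‖f u‖ ≤ A ∧ ‖f u‖ ≤ A * Real.exp (2 * u))
    (hg : ∀ u, ‖g u‖ ≤ A ∧ ‖g u‖ ≤ A * Real.exp (-(2 * u))) (τ : Finset ℝ) (c : ℝ → ℂ)
    {φ : ℝ → ℂ} (hφ0 : ∀ ξ, 1 < |ξ| → φ ξ = 0) (hφ1 : Integrable φ) (hφ2 : Integrable (𝓕 φ))
    {T : ℝ} (hT : 0 < T)
    (hL : ∀ t ∈ Icc (-(2 * π * T)) (2 * π * T),
      Loc (fun w => lt f w - ∑ γ ∈ τ, c γ / (w - γ * I))
        (fun w => lt g w - ∑ γ ∈ τ, c γ / (w - γ * I)) t) (v : ℝ) :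
    ∫ u, dmp f g τ c 0 (v + u / T) * 𝓕 φ u = 0 := by
  have hlt : ∀ᶠ ε : ℝ in 𝓝[>] 0, 0 < ε ∧ ε < 1 := by
    filter_upwards [self_mem_nhdsWithin, nhdsWithin_le_nhds (Iio_mem_nhds one_pos)] with ε h1 h2
    exact ⟨h1, h2⟩
  have h1 : Tendsto (fun ε => ∫ u, dmp f g τ c ε (v + u / T) * 𝓕 φ u) (𝓝[>] 0)
      (𝓝 (∫ u, dmp f g τ c 0 (v + u / T) * 𝓕 φ u)) := by
    refine tendsto_integral_filter_of_dominated_convergence
      (fun u => (2 * A + ∑ γ ∈ τ, ‖c γ‖) * ‖𝓕 φ u‖) ?_ ?_ (hφ2.norm.const_mul _) ?_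
    · refine Eventually.of_forall fun ε => AEStronglyMeasurable.mul ?_ hφ2.1
      refine Continuous.aestronglyMeasurable ?_
      unfold dmp
      fun_prop
    · filter_upwards [hlt] with ε hε
      refine Eventually.of_forall fun u => ?_
      rw [norm_mul]
      exact mul_le_mul_of_nonneg_right ((dmp_facts hfc hgc hf hg τ c hε.1 hε.2).2.1 _)
        (norm_nonneg _)
    · refine Eventually.of_forall fun u => ?_
      refine Tendsto.mul_const _ (Tendsto.mono_left ?_ nhdsWithin_le_nhds)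
      have : Continuous (fun ε : ℝ => dmp f g τ c ε (v + u / T)) := by
        unfold dmp
        fun_prop
      exact this.tendsto 0
  have h2 : Tendsto (fun ε => ∫ u, dmp f g τ c ε (v + u / T) * 𝓕 φ u) (𝓝[>] 0) (𝓝 0) := by
    rw [NormedAddGroup.tendsto_nhds_zero]
    intro δ hδ
    set B := T * ∫ ξ, ‖φ ξ‖ with hB
    have hB0 : 0 ≤ B := mul_nonneg hT.le (integral_nonneg fun _ => norm_nonneg _)
    have hη : 0 < δ / (B + 1) := by positivity
    filter_upwards [hlt, nhdsWithin_le_nhds (jump_small isCompact_Icc hL hη)] with ε hε hj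
    obtain ⟨k1, -, k3⟩ := dmp_facts hfc hgc hf hg τ c hε.1 hε.2
    rw [duality hφ1 k1 hT]
    have : ‖∫ ξ : ℝ, (T * cexp (2 * π * ξ * T * v * I) *
        lt (dmp f g τ c ε) (2 * π * ξ * T * I)) * φ ξ‖ ≤ ∫ ξ, T * (δ / (B + 1)) * ‖φ ξ‖ := by
      refine norm_integral_le_of_norm_le (hφ1.norm.const_mul _) (Eventually.of_forall fun ξ => ?_)
      by_cases hξ : 1 < |ξ|
      · simp [hφ0 ξ hξ]
      · rw [norm_mul]
        refine mul_le_mul_of_nonneg_right ?_ (norm_nonneg _)
        have e1 : (2 * π * ξ * T * I : ℂ) = ((2 * π * ξ * T : ℝ) : ℂ) * I := by push_cast; ring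
        have e2 : (2 * π * ξ * T * v * I : ℂ) = ((2 * π * ξ * T * v : ℝ) : ℂ) * I := by
          push_cast; ring
        rw [e1, e2, norm_mul, norm_mul, Complex.norm_exp_ofReal_mul_I, mul_one, Complex.norm_real,
          Real.norm_eq_abs, abs_of_pos hT, k3]
        refine mul_le_mul_of_nonneg_left (hj _ ?_ hε.1) hT.le
        have h3 := abs_le.1 (not_lt.1 hξ)
        have h4 : 0 < 2 * π * T := by positivity
        constructor <;> nlinarith
    refine this.trans_lt ?_
    rw [integral_const_mul]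
    calc T * (δ / (B + 1)) * ∫ ξ, ‖φ ξ‖ = δ * (B / (B + 1)) := by rw [hB]; ring
      _ < δ * 1 := by
          refine mul_lt_mul_of_pos_left ?_ hδ
          rw [div_lt_one (by positivity)]; linarith
      _ = δ := mul_one _
  exact tendsto_nhds_unique h1 h2

theorem core : ∃ c₀ : ℝ, 0 ≤ c₀ ∧ ∀ (f g : ℝ → ℂ) (A C : ℝ), Continuous f → Continuous g →
    (∀ u, ‖f u‖ ≤ A ∧ ‖f u‖ ≤ A * Real.exp (2 * u)) →
    (∀ u, ‖g u‖ ≤ A ∧ ‖g u‖ ≤ A * Real.exp (-(2 * u))) →
    (∀ t : ℝ, ∃ (c : ℂ) (H : ℂ → ℂ), AnalyticAt ℂ H (t * I) ∧ ∀ᶠ w in 𝓝 ((t : ℂ) * I),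
      (0 < w.re → lt f w = c / (w - t * I) + H w) ∧ (w.re < 0 → lt g w = c / (w - t * I) + H w)) →
    (∀ᶠ u in atTop, ‖f u - g u‖ ≤ C) → ∀ v, ‖f v - g v‖ ≤ c₀ * C := by
  obtain ⟨φ, -, hφ0, hφ1, hφ2, hφ3⟩ := exists_kernel
  refine ⟨∫ u, ‖𝓕 φ u‖, integral_nonneg fun _ => norm_nonneg _, ?_⟩
  intro f g A C hfc hgc hf hg hloc hC v
  have hC0 : 0 ≤ C := by
    obtain ⟨u, hu⟩ := hC.exists
    exact (norm_nonneg _).trans hu
  have hb : ∀ u, ‖f u - g u‖ ≤ 2 * A := fun u =>
    (norm_sub_le _ _).trans (by linarith [(hf u).1, (hg u).1])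
  have hint : ∀ T s : ℝ, Integrable (fun u => (f (s + u / T) - g (s + u / T)) * 𝓕 φ u) :=
    fun T s => hφ2.bdd_mul (c := 2 * A) (Continuous.aestronglyMeasurable (by fun_prop))
      (Eventually.of_forall fun u => hb _)
  have key : ∀ T : ℝ, 0 < T →
      ‖∫ u, (f (v + u / T) - g (v + u / T)) * 𝓕 φ u‖ ≤ (∫ u, ‖𝓕 φ u‖) * C := by
    intro T hT
    obtain ⟨τ, c, hL⟩ := exists_poles (isCompact_Icc (a := -(2 * π * T)) (b := 2 * π * T)) hloc
    have hi2 : ∀ γ : ℝ, Integrable (fun u : ℝ => cexp (γ * (u / T : ℝ) * I) * 𝓕 φ u) := fun γ =>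
      hφ2.bdd_mul (c := 1) (Continuous.aestronglyMeasurable (by fun_prop))
        (Eventually.of_forall fun u => by
          rw [← Complex.ofReal_mul, Complex.norm_exp_ofReal_mul_I])
    have hS : ∀ s : ℝ, ∫ u, (f (s + u / T) - g (s + u / T)) * 𝓕 φ u =
        ∑ γ ∈ τ, cexp (γ * s * I) * (c γ * ∫ u : ℝ, cexp (γ * (u / T : ℝ) * I) * 𝓕 φ u) := by
      intro s
      have h1 := vanish hfc hgc hf hg τ c hφ0 hφ1 hφ2 hT hL s
      have e : (fun u => dmp f g τ c 0 (s + u / T) * 𝓕 φ u) = fun u =>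
          (f (s + u / T) - g (s + u / T)) * 𝓕 φ u -
            ∑ γ ∈ τ, cexp (γ * s * I) * (c γ * (cexp (γ * (u / T : ℝ) * I) * 𝓕 φ u)) := by
        ext u
        unfold dmp
        rw [sub_mul (_ - _), Finset.sum_mul]
        congr 1
        · simp
        · refine Finset.sum_congr rfl fun γ _ => ?_
          have : cexp (-((0 * |s + u / T| : ℝ) : ℂ) + (γ * I) * ((s + u / T : ℝ) : ℂ)) =
              cexp (γ * s * I) * cexp (γ * (u / T : ℝ) * I) := by
            rw [← Complex.exp_add]; congr 1; push_cast; ring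
          rw [this]; ring
      rw [e, integral_sub (hint T s)
        (integrable_finsetSum _ fun γ _ => ((hi2 γ).const_mul _).const_mul _),
        integral_finsetSum _ fun γ _ => ((hi2 γ).const_mul _).const_mul _, sub_eq_zero] at h1
      rw [h1]
      refine Finset.sum_congr rfl fun γ _ => ?_
      rw [integral_const_mul, integral_const_mul]
    obtain ⟨t, ht1, ht2⟩ := recur τ
    have l1 : Tendsto (fun k => ‖∫ u, (f (v + t k + u / T) - g (v + t k + u / T)) * 𝓕 φ u‖) atTop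
        (𝓝 ‖∫ u, (f (v + u / T) - g (v + u / T)) * 𝓕 φ u‖) := by
      simp only [hS]
      refine Tendsto.norm (tendsto_finsetSum _ fun γ hγ => Tendsto.mul_const _ ?_)
      have := (ht2 γ hγ).const_mul (cexp (γ * v * I))
      rw [mul_one] at this
      refine this.congr fun k => ?_
      rw [← Complex.exp_add]; congr 1; push_cast; ring
    have l2 : Tendsto (fun k => ∫ u, max ‖f (v + t k + u / T) - g (v + t k + u / T)‖ C * ‖𝓕 φ u‖)
        atTop (𝓝 (∫ u, C * ‖𝓕 φ u‖)) := by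
      refine tendsto_integral_filter_of_dominated_convergence
        (fun u => max (2 * A) C * ‖𝓕 φ u‖) ?_ ?_ (hφ2.norm.const_mul _) ?_
      · refine Eventually.of_forall fun k => AEStronglyMeasurable.mul ?_ hφ2.1.norm
        exact Continuous.aestronglyMeasurable (by fun_prop)
      · refine Eventually.of_forall fun k => Eventually.of_forall fun u => ?_
        rw [norm_mul, norm_norm, Real.norm_of_nonneg (hC0.trans (le_max_right _ _))]
        exact mul_le_mul_of_nonneg_right (max_le_max_right _ (hb _)) (norm_nonneg _)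
      · refine Eventually.of_forall fun u => Tendsto.mul_const _ ?_
        have h3 : Tendsto (fun k => v + t k + u / T) atTop atTop :=
          tendsto_atTop_add_const_right _ _ (tendsto_atTop_add_const_left _ _ ht1)
        refine tendsto_const_nhds.congr' ?_
        filter_upwards [h3.eventually hC] with k hk
        exact (max_eq_right hk).symm
    rw [integral_const_mul, mul_comm] at l2
    refine le_of_tendsto_of_tendsto' l1 l2 fun k => ?_
    refine norm_integral_le_of_norm_le ?_ (Eventually.of_forall fun u => ?_)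
    · refine hφ2.norm.bdd_mul (c := max (2 * A) C)
        (Continuous.aestronglyMeasurable (by fun_prop)) (Eventually.of_forall fun u => ?_)
      rw [Real.norm_of_nonneg (hC0.trans (le_max_right _ _))]
      exact max_le_max_right _ (hb _)
    · rw [norm_mul]
      exact mul_le_mul_of_nonneg_right (le_max_left _ _) (norm_nonneg _)
  have l3 : Tendsto (fun T : ℝ => ∫ u, (f (v + u / T) - g (v + u / T)) * 𝓕 φ u) atTop
      (𝓝 (∫ u, (f v - g v) * 𝓕 φ u)) := by
    refine tendsto_integral_filter_of_dominated_convergence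
      (fun u => 2 * A * ‖𝓕 φ u‖) ?_ ?_ (hφ2.norm.const_mul _) ?_
    · exact Eventually.of_forall fun T => (hint T v).1
    · refine Eventually.of_forall fun k => Eventually.of_forall fun u => ?_
      rw [norm_mul]
      exact mul_le_mul_of_nonneg_right (hb _) (norm_nonneg _)
    · refine Eventually.of_forall fun u => Tendsto.mul_const _ ?_
      have h3 : Tendsto (fun T : ℝ => v + u / T) atTop (𝓝 (v + 0)) :=
        tendsto_const_nhds.add (tendsto_const_nhds.div_atTop tendsto_id)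
      rw [add_zero] at h3
      exact ((hfc.sub hgc).tendsto v).comp h3
  rw [integral_const_mul, hφ3, mul_one] at l3
  refine le_of_tendsto l3.norm ?_
  filter_upwards [eventually_gt_atTop 0] with T hT using key T hT

end

end H682Z
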