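import Pool.Agent.H682Z.Carl3

/-! Carleman type lemma, part 4: Mellin form. -/

open MeasureTheory Filter Topology Complex Set Asymptotics
open scoped Real

namespace H682Z

noncomputable section

theorem strip_open (a b : ℝ) : IsOpen {w : ℂ | a < w.re ∧ w.re < b} :=
  (isOpen_lt continuous_const Complex.continuous_re).inter
    (isOpen_lt Complex.continuous_re continuous_const)

theorem strip_conn (a b : ℝ) : IsPreconnected {w : ℂ | a < w.re ∧ w.re < b} :=
  ((convex_halfSpace_re_gt a).inter (convex_halfSpace_re_lt b)).isPreconnected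

theorem extend_strip {F G : ℂ → ℂ} {a b a' b' : ℝ} (ha : a ≤ a') (hab : a' < b') (hb : b' ≤ b)
    (hF : DifferentiableOn ℂ F {w : ℂ | a < w.re ∧ w.re < b})
    (hG : DifferentiableOn ℂ G {w : ℂ | a < w.re ∧ w.re < b})
    (h : ∀ w : ℂ, a' < w.re → w.re < b' → F w = G w) :
    ∀ w : ℂ, a < w.re → w.re < b → F w = G w := by
  intro w h1 h2
  have hm : (((a' + b') / 2 : ℝ) : ℂ) ∈ {w : ℂ | a' < w.re ∧ w.re < b'} := by
    simp only [mem_ofPred_eq, ofReal_re]
    constructor <;> linarith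
  refine (hF.analyticOnNhd (strip_open a b)).eqOn_of_preconnected_of_eventuallyEq
    (hG.analyticOnNhd (strip_open a b)) (strip_conn a b) (z₀ := (((a' + b') / 2 : ℝ) : ℂ))
    ⟨ha.trans_lt hm.1, hm.2.trans_le hb⟩ ?_ ⟨h1, h2⟩
  filter_upwards [(strip_open a' b').mem_nhds hm] with z hz using h z hz.1 hz.2

theorem carleman : ∃ c₀ : ℝ, 0 ≤ c₀ ∧ ∀ (p q : ℝ → ℂ) (A C : ℝ) (X W : ℂ → ℂ),
    ContinuousOn p (Ioi 0) → ContinuousOn q (Ioi 0) →
    (∀ r, 0 < r → ‖p r‖ ≤ A ∧ ‖p r‖ ≤ A / r ^ 2) →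
    (∀ r, 0 < r → ‖q r‖ ≤ A ∧ ‖q r‖ ≤ A * r ^ 2) →
    DifferentiableOn ℂ X {w : ℂ | -2 < w.re ∧ w.re < 2} →
    DifferentiableOn ℂ W {w : ℂ | -2 < w.re ∧ w.re < 2} →
    (∃ w : ℂ, -2 < w.re ∧ w.re < 2 ∧ X w ≠ 0) →
    (∀ w : ℂ, 1 < w.re → w.re < 2 → X w * mellin p w = W w) →
    (∀ w : ℂ, -2 < w.re → w.re < -1 → X w * mellin q w = W w) →
    (∀ᶠ r in 𝓝[>] 0, ‖p r - q r‖ ≤ C) → ∀ r, 0 < r → ‖p r - q r‖ ≤ c₀ * C := by
  obtain ⟨c₀, hc₀, hcore⟩ := core
  refine ⟨c₀, hc₀, ?_⟩
  intro p q A C X W hpc hqc hp hq hX hW hX0 hP hQ hC r hr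
  have hpd : ∀ w : ℂ, 0 < w.re → w.re < 2 → DifferentiableAt ℂ (mellin p) w := by
    intro w h1 h2
    refine mellin_differentiableAt_of_isBigO_rpow (a := 2) (b := 0)
      (hpc.locallyIntegrableOn measurableSet_Ioi) ?_ h2 ?_ h1
    · refine IsBigO.of_bound A ?_
      filter_upwards [eventually_gt_atTop 0] with x hx
      rw [Real.norm_of_nonneg (Real.rpow_nonneg hx.le _), Real.rpow_neg hx.le, Real.rpow_two]
      exact (hp x hx).2
    · refine IsBigO.of_bound A ?_
      filter_upwards [self_mem_nhdsWithin] with x hx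
      simpa using (hp x hx).1
  have hqd : ∀ w : ℂ, -2 < w.re → w.re < 0 → DifferentiableAt ℂ (mellin q) w := by
    intro w h1 h2
    refine mellin_differentiableAt_of_isBigO_rpow (a := 0) (b := -2)
      (hqc.locallyIntegrableOn measurableSet_Ioi) ?_ h2 ?_ h1
    · refine IsBigO.of_bound A ?_
      filter_upwards [eventually_gt_atTop 0] with x hx
      simpa using (hq x hx).1
    · refine IsBigO.of_bound A ?_
      filter_upwards [self_mem_nhdsWithin] with x hx
      have hx' : (0 : ℝ) < x := hx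
      rw [Real.norm_of_nonneg (Real.rpow_nonneg hx'.le _), neg_neg, Real.rpow_two]
      exact (hq x hx).2
  have hP' : ∀ w : ℂ, 0 < w.re → w.re < 2 → X w * mellin p w = W w := by
    refine extend_strip (F := fun w => X w * mellin p w) (a' := 1) (b' := 2) (by norm_num)
      (by norm_num) le_rfl ?_ (hW.mono fun w hw => ⟨by linarith [hw.1], hw.2⟩) hP
    exact (hX.mono fun w hw => ⟨by linarith [hw.1], hw.2⟩).mul
      fun w hw => (hpd w hw.1 hw.2).differentiableWithinAt
  have hQ' : ∀ w : ℂ, -2 < w.re → w.re < 0 → X w * mellin q w = W w := by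
    refine extend_strip (F := fun w => X w * mellin q w) (a' := -2) (b' := -1) le_rfl
      (by norm_num) (by norm_num) ?_ (hW.mono fun w hw => ⟨hw.1, by linarith [hw.2]⟩) hQ
    exact (hX.mono fun w hw => ⟨hw.1, by linarith [hw.2]⟩).mul
      fun w hw => (hqd w hw.1 hw.2).differentiableWithinAt
  have hexp : Continuous (fun u : ℝ => Real.exp (-u)) := by fun_prop
  have hf : ∀ u, ‖p (Real.exp (-u))‖ ≤ A ∧ ‖p (Real.exp (-u))‖ ≤ A * Real.exp (2 * u) := by
    intro u
    refine ⟨(hp _ (Real.exp_pos _)).1, (hp _ (Real.exp_pos _)).2.trans (le_of_eq ?_)⟩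
    rw [← Real.exp_nat_mul, div_eq_mul_inv, ← Real.exp_neg]
    congr 2; push_cast; ring
  have hg : ∀ u, ‖q (Real.exp (-u))‖ ≤ A ∧ ‖q (Real.exp (-u))‖ ≤ A * Real.exp (-(2 * u)) := by
    intro u
    refine ⟨(hq _ (Real.exp_pos _)).1, (hq _ (Real.exp_pos _)).2.trans (le_of_eq ?_)⟩
    rw [← Real.exp_nat_mul]
    congr 2; push_cast; ring
  have hXa := hX.analyticOnNhd (strip_open (-2) 2)
  have hWa := hW.analyticOnNhd (strip_open (-2) 2)
  have key := hcore (fun u => p (Real.exp (-u))) (fun u => q (Real.exp (-u))) A C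
    (hpc.comp_continuous hexp fun u => Real.exp_pos _)
    (hqc.comp_continuous hexp fun u => Real.exp_pos _) hf hg ?_ ?_ (-Real.log r)
  · simpa [Real.exp_log hr] using key
  · intro t
    have ht : (t : ℂ) * I ∈ {w : ℂ | -2 < w.re ∧ w.re < 2} := by simp
    have hn := (strip_open (-2) 2).mem_nhds ht
    refine local_pole (X := X) (W := W) (A := 2 * A) (by simp) (hXa _ ht) ?_ (hWa _ ht) ?_ ?_ ?_
    · rcases (hXa _ ht).eventually_eq_zero_or_eventually_ne_zero with h | h
      · obtain ⟨w, h1, h2, h3⟩ := hX0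
        exact absurd (hXa.eqOn_zero_of_preconnected_of_eventuallyEq_zero (strip_conn _ _) ht h
          ⟨h1, h2⟩) h3
      · exact h
    · filter_upwards [hn] with w hw h
      rw [← mellin_eq_lt]; exact hP' w h hw.2
    · filter_upwards [hn] with w hw h
      rw [← mellin_eq_lt]; exact hQ' w hw.1 h
    · intro ε h0 h1
      have := norm_lt_le hf (w := t * I + ε) (by simpa using h0) (by simpa using h1)
      simpa using this
  · have : Tendsto (fun u : ℝ => Real.exp (-u)) atTop (𝓝[>] 0) :=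
      tendsto_nhdsWithin_iff.2 ⟨Real.tendsto_exp_neg_atTop_nhds_zero,
        Eventually.of_forall fun u => Real.exp_pos _⟩
    exact this.eventually hC

end

end H682Z
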