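import Mathlib

/-! Laplace transform of a complex power at a complex point (adapted from Pool/Agent/H631/KR/K05). -/

open MeasureTheory Filter Topology Complex

namespace H682Z

noncomputable section

theorem lap_meas (a r : ℂ) : AEStronglyMeasurable
    (fun t : ℝ => (t : ℂ) ^ (a - 1) * Complex.exp (-(r * (t : ℂ)))) (volume.restrict (Set.Ioi 0)) := by
  apply ContinuousOn.aestronglyMeasurable _ measurableSet_Ioi
  refine ContinuousOn.mul ?_ (by fun_prop)
  intro s hs
  refine ContinuousAt.continuousWithinAt ?_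
  exact (Complex.continuousAt_ofReal_cpow_const s _ (Or.inr (ne_of_gt hs)))

theorem lap_int (a : ℂ) (ha : 0 < a.re) (r : ℂ) (hr : 0 < r.re) :
    IntegrableOn (fun t : ℝ => (t : ℂ) ^ (a - 1) * Complex.exp (-(r * (t : ℂ)))) (Set.Ioi 0) := by
  have h0 : IntegrableOn (fun s : ℝ => s ^ (a.re - 1) * Real.exp (-r.re * s ^ (1:ℝ)))
      (Set.Ioi 0) :=
    integrableOn_rpow_mul_exp_neg_mul_rpow (by linarith) one_pos hr
  refine Integrable.mono' h0 (lap_meas a r) ?_
  refine (ae_restrict_iff' measurableSet_Ioi).2 (Eventually.of_forall fun s hs => ?_)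
  rw [norm_mul, Complex.norm_exp, Complex.norm_cpow_eq_rpow_re_of_pos hs, Real.rpow_one]
  apply le_of_eq
  simp

theorem lap_diff (a : ℂ) (ha : 0 < a.re) (r : ℂ) (hr : 0 < r.re) :
    DifferentiableAt ℂ (fun r : ℂ => ∫ t in Set.Ioi (0:ℝ),
      (t : ℂ) ^ (a - 1) * Complex.exp (-(r * (t : ℂ)))) r := by
  have h0 : IntegrableOn (fun s : ℝ => s ^ (a.re) * Real.exp (-(r.re / 2) * s ^ (1:ℝ)))
      (Set.Ioi 0) :=
    integrableOn_rpow_mul_exp_neg_mul_rpow (by linarith) one_pos (by linarith)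
  have key := hasDerivAt_integral_of_dominated_loc_of_deriv_le
    (μ := (volume : Measure ℝ).restrict (Set.Ioi 0)) (x₀ := r)
    (F := fun (r : ℂ) (t : ℝ) => (t : ℂ) ^ (a - 1) * Complex.exp (-(r * (t : ℂ))))
    (F' := fun (r : ℂ) (t : ℝ) => (t : ℂ) ^ (a - 1) * (Complex.exp (-(r * (t : ℂ))) * (-(t : ℂ))))
    (bound := fun t => t ^ (a.re) * Real.exp (-(r.re / 2) * t ^ (1:ℝ)))
    (s := Metric.ball r (r.re / 2)) (Metric.ball_mem_nhds r (by linarith))
    (Eventually.of_forall fun x => lap_meas a x) (lap_int a ha r hr) ?_ ?_ h0 ?_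
  · exact key.2.differentiableAt
  · have h1 := (lap_meas a r).mul (g := fun t : ℝ => (-(t : ℂ))) (by fun_prop)
    refine h1.congr (Eventually.of_forall fun t => ?_)
    show (t : ℂ) ^ (a - 1) * Complex.exp (-(r * (t : ℂ))) * (-(t : ℂ)) = _
    ring
  · refine (ae_restrict_iff' measurableSet_Ioi).2 (Eventually.of_forall fun s hs => ?_)
    intro x hx
    have hs' : 0 < s := hs
    have hx1 : r.re / 2 < x.re := by
      have h1 : |(x - r).re| < r.re / 2 := by
        refine (Complex.abs_re_le_norm _).trans_lt ?_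
        rw [Metric.mem_ball, dist_eq_norm] at hx
        exact hx
      rw [Complex.sub_re] at h1
      have := (abs_lt.1 h1).1
      linarith
    rw [norm_mul, norm_mul, Complex.norm_exp, Complex.norm_cpow_eq_rpow_re_of_pos hs, Real.rpow_one,
      norm_neg, Complex.norm_real, Real.norm_eq_abs, abs_of_pos hs']
    have h2 : (-(x * (s : ℂ))).re = -(x.re * s) := by
      rw [Complex.neg_re, Complex.re_mul_ofReal]
    rw [h2, Complex.sub_re, Complex.one_re]
    have h3 : s ^ (a.re) = s ^ (a.re - 1) * s := by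
      rw [Real.rpow_sub_one hs'.ne']
      field_simp
    rw [h3]
    have h4 : Real.exp (-(x.re * s)) ≤ Real.exp (-(r.re / 2) * s) := by
      apply Real.exp_le_exp.2
      nlinarith
    calc s ^ (a.re - 1) * (Real.exp (-(x.re * s)) * s)
        = s ^ (a.re - 1) * s * Real.exp (-(x.re * s)) := by ring
      _ ≤ s ^ (a.re - 1) * s * Real.exp (-(r.re / 2) * s) :=
          mul_le_mul_of_nonneg_left h4 (by positivity)
  · refine Eventually.of_forall fun t x _ => ?_
    have h5 : HasDerivAt (fun r : ℂ => -(r * (t : ℂ))) (-(t : ℂ)) x := by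
      have h6 : HasDerivAt (fun r : ℂ => r * (t : ℂ)) (t : ℂ) x := by
        simpa using (hasDerivAt_id x).mul_const (t : ℂ)
      exact h6.neg
    exact (h5.cexp).const_mul _

theorem lap_val (a : ℂ) (ha : 0 < a.re) (r : ℂ) (hr : 0 < r.re) :
    ∫ t in Set.Ioi (0:ℝ), (t : ℂ) ^ (a - 1) * Complex.exp (-(r * (t : ℂ))) =
      (1 / r) ^ a * Complex.Gamma a := by
  have hopen : IsOpen {r : ℂ | 0 < r.re} := isOpen_lt continuous_const Complex.continuous_re
  have hconv : Convex ℝ {r : ℂ | 0 < r.re} := convex_halfSpace_re_gt 0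
  have hf : AnalyticOnNhd ℂ (fun r : ℂ => ∫ t in Set.Ioi (0:ℝ),
      (t : ℂ) ^ (a - 1) * Complex.exp (-(r * (t : ℂ)))) {r : ℂ | 0 < r.re} :=
    DifferentiableOn.analyticOnNhd (fun x hx => (lap_diff a ha x hx).differentiableWithinAt) hopen
  have hg : AnalyticOnNhd ℂ (fun r : ℂ => (1 / r) ^ a * Complex.Gamma a) {r : ℂ | 0 < r.re} := by
    refine DifferentiableOn.analyticOnNhd (fun x hx => ?_) hopen
    have hx' : 0 < x.re := hx
    have hx0 : x ≠ 0 := by
      rintro rfl
      simp at hx'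
    refine DifferentiableAt.differentiableWithinAt ?_
    refine DifferentiableAt.mul_const ?_ _
    refine DifferentiableAt.cpow_const ?_ ?_
    · exact (differentiableAt_const (1:ℂ)).div differentiableAt_fun_id hx0
    · rw [one_div]
      left
      rw [Complex.inv_re]
      exact div_pos hx' (Complex.normSq_pos.2 hx0)
  refine hf.eqOn_of_preconnected_of_frequently_eq hg hconv.isPreconnected (z₀ := 1) (by simp) ?_ hr
  have hreal : ∀ x : ℝ, 0 < x → (∫ t in Set.Ioi (0:ℝ),
      (t : ℂ) ^ (a - 1) * Complex.exp (-((x : ℂ) * (t : ℂ)))) = (1 / (x : ℂ)) ^ a * Complex.Gamma a :=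
    fun x hx => Complex.integral_cpow_mul_exp_neg_mul_Ioi ha hx
  have hseq : Tendsto (fun n : ℕ => ((1 + 1 / ((n : ℝ) + 1) : ℝ) : ℂ)) atTop (𝓝[≠] 1) := by
    refine tendsto_nhdsWithin_iff.2 ⟨?_, Eventually.of_forall fun n => ?_⟩
    · have h1 : Tendsto (fun n : ℕ => (1 + 1 / ((n : ℝ) + 1) : ℝ)) atTop (𝓝 (1 + 0)) :=
        tendsto_const_nhds.add tendsto_one_div_add_atTop_nhds_zero_nat
      rw [add_zero] at h1
      have h2 := (Complex.continuous_ofReal.tendsto 1).comp h1
      rw [Complex.ofReal_one] at h2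
      exact h2
    · intro h
      have h1 : (1 + 1 / ((n : ℝ) + 1) : ℝ) = 1 := by
        exact_mod_cast (Set.mem_singleton_iff.1 h)
      have h2 : (0:ℝ) < 1 / ((n : ℝ) + 1) := by positivity
      linarith
  refine hseq.frequently (Frequently.of_forall fun n => ?_)
  exact hreal _ (by positivity)

end

end H682Z
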