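import Pool.Agent.H682Z.Ser
import Pool.Agent.H682Z.Lap

/-! Mellin transforms of the two kernels and the functional equation identity. -/

open MeasureTheory Filter Topology Complex Set
open scoped Real ArithmeticFunction.Moebius

namespace H682Z

noncomputable section

theorem exp_re_pos {l : ℂ} (h1 : -(π / 2) < l.im) (h2 : l.im < π / 2) : 0 < (cexp l).re := by
  rw [Complex.exp_re]
  exact mul_pos (Real.exp_pos _) (Real.cos_pos_of_mem_Ioo ⟨h1, h2⟩)

theorem hm_exp {l : ℂ} (h1 : -(π / 2) < l.im) (h2 : l.im < π / 2) (k : ℕ) {s : ℂ}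
    (hs : 0 < (s + k).re) :
    HasMellin (fun t : ℝ => (t : ℂ) ^ k * cexp (-(cexp l * t))) s
      (cexp (-((s + k) * l)) * Gamma (s + k)) := by
  have hb := exp_re_pos h1 h2
  have h3 : HasMellin (fun t : ℝ => cexp (-(cexp l * t))) (s + k)
      (cexp (-((s + k) * l)) * Gamma (s + k)) := by
    refine ⟨lap_int _ hs _ hb, ?_⟩
    refine (lap_val _ hs _ hb).trans ?_
    rw [one_div, ← Complex.exp_neg, Complex.cpow_def_of_ne_zero (Complex.exp_ne_zero _),
      Complex.log_exp (by rw [neg_im]; linarith [Real.pi_pos])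
        (by rw [neg_im]; linarith [Real.pi_pos])]
    congr 2; ring
  have h4 : HasMellin (fun t : ℝ => (t : ℂ) ^ (k : ℂ) • cexp (-(cexp l * t))) s
      (cexp (-((s + k) * l)) * Gamma (s + k)) :=
    ⟨MellinConvergent.cpow_smul.2 h3.1, by rw [mellin_cpow_smul, h3.2]⟩
  simpa only [Complex.cpow_natCast, smul_eq_mul] using h4

/-- kernel on the side of the exponential sum -/
def al (a : ℂ) (ρ : ℝ) : ℂ := (ρ : ℂ) ^ 2 * (a * (ρ : ℂ) ^ 2 - 1 / 2) * cexp (-(a * (ρ : ℂ) ^ 2))

/-- kernel on the dual side -/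
def ta (b : ℂ) (ρ : ℝ) : ℂ := (ρ : ℂ) ^ 2 * cexp (-(b * ρ))

theorem hm_al {l : ℂ} (h1 : -(π / 2) < l.im) (h2 : l.im < π / 2) {w : ℂ} (hw : -2 < w.re) :
    HasMellin (al (cexp l)) w
      (1 / 2 * ((1 + w) / 2) * cexp (-((w / 2 + 1) * l)) * Gamma (w / 2 + 1)) := by
  have hs1 : 0 < (w / 2 + (1 : ℕ)).re := by
    simp only [Nat.cast_one, add_re, div_ofNat_re, one_re]; linarith
  have hs2 : 0 < (w / 2 + (2 : ℕ)).re := by
    simp only [Nat.cast_ofNat, add_re, div_ofNat_re, re_ofNat]; linarith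
  have a1 := hm_exp h1 h2 1 hs1
  have a2 := hm_exp h1 h2 2 hs2
  have b1 := hasMellin_const_smul a1.1 (1 / 2 : ℂ)
  have b2 := hasMellin_const_smul a2.1 (cexp l)
  have b3 := hasMellin_sub b2.1 b1.1
  rw [b1.2, b2.2, a1.2, a2.2] at b3
  set g : ℝ → ℂ := fun t : ℝ => cexp l • ((t : ℂ) ^ 2 * cexp (-(cexp l * t))) -
    (1 / 2 : ℂ) • ((t : ℂ) ^ 1 * cexp (-(cexp l * t))) with hg
  have e : al (cexp l) = fun ρ : ℝ => g (ρ ^ (2 : ℝ)) := by
    ext ρ
    simp only [hg, al, Real.rpow_two, smul_eq_mul]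
    push_cast
    ring
  have hw2 : w / ((2 : ℝ) : ℂ) = w / 2 := by norm_num
  rw [e]
  refine ⟨(MellinConvergent.comp_rpow two_ne_zero).2 (by rw [hw2]; exact b3.1), ?_⟩
  rw [mellin_comp_rpow, hw2, b3.2]
  have hne : w / 2 + 1 ≠ 0 := fun h => by
    have := congrArg Complex.re h
    simp only [add_re, div_ofNat_re, one_re, zero_re] at this
    linarith
  have e2 : w / 2 + ((2 : ℕ) : ℂ) = (w / 2 + 1) + 1 := by push_cast; ring
  have e3 : cexp (-((w / 2 + 1 + 1) * l)) = cexp (-((w / 2 + 1) * l)) * (cexp l)⁻¹ := by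
    rw [← Complex.exp_neg, ← Complex.exp_add]; congr 1; ring
  rw [e2, Gamma_add_one _ hne, e3, Nat.cast_one]
  have := Complex.exp_ne_zero l
  simp only [smul_eq_mul, Complex.real_smul, abs_two]
  push_cast
  field_simp
  ring

theorem hm_ta {l : ℂ} (h1 : -(π / 2) < l.im) (h2 : l.im < π / 2) {w : ℂ} (hw : -2 < w.re) :
    HasMellin (ta (cexp l)) w (cexp (-((w + 2) * l)) * Gamma (w + 2)) := by
  have hs2 : 0 < (w + (2 : ℕ)).re := by
    simp only [Nat.cast_ofNat, add_re, re_ofNat]; linarith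
  exact hm_exp h1 h2 2 hs2

/-- the entire function `s (1 - s) Λ(s)` -/
def XX (s : ℂ) : ℂ := s * (1 - s) * completedRiemannZeta₀ s - 1

theorem XX_diff : Differentiable ℂ XX := by
  have := differentiable_completedZeta₀
  unfold XX
  fun_prop

theorem XX_symm (s : ℂ) : XX (1 - s) = XX s := by
  unfold XX
  rw [completedRiemannZeta₀_one_sub]; ring

theorem XX_mul {s : ℂ} (hs : 1 < s.re) :
    XX s * LSeries (fun n => (μ n : ℂ)) s = s * (1 - s) * Gammaℝ s := by
  have h0 : s ≠ 0 := fun h => by rw [h] at hs; simp at hs; linarith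
  have h1 : 1 - s ≠ 0 := fun h => by
    have := congrArg Complex.re h
    simp only [sub_re, one_re, zero_re] at this
    linarith
  have h2 := LSeries_one_mul_Lseries_moebius hs
  rw [LSeries_one_eq_riemannZeta hs, riemannZeta_def_of_ne_zero h0, completedRiemannZeta_eq] at h2
  have h3 : Gammaℝ s ≠ 0 := Gammaℝ_ne_zero_of_re_pos (by linarith)
  have h4 : XX s = s * (1 - s) * (completedRiemannZeta₀ s - 1 / s - 1 / (1 - s)) := by
    unfold XX; field_simp; ring
  rw [h4, mul_assoc]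
  congr 1
  rw [div_mul_eq_mul_div, div_eq_one_iff_eq h3] at h2
  exact h2

/-- the normalising constant -/
def kap : ℂ := -(cexp (Real.log (2 * π) / 2 + π / 4 * I) * (√π : ℝ))

theorem kap_ne : kap ≠ 0 := by
  unfold kap
  refine neg_ne_zero.2 (mul_ne_zero (Complex.exp_ne_zero _) ?_)
  exact_mod_cast (Real.sqrt_pos.2 Real.pi_pos).ne'

/-- logarithm of `-2πi ζ²` -/
def la (l : ℂ) : ℂ := Real.log (2 * π) - π / 2 * I + 2 * l
/-- logarithm of `-4πi ζ` -/
def lb1 (l : ℂ) : ℂ := Real.log 2 + Real.log (2 * π) - π / 2 * I + l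
/-- logarithm of `4π ζ` -/
def lb2 (l : ℂ) : ℂ := Real.log 2 + Real.log (2 * π) + l

/-- the common numerator -/
def WW (l : ℂ) (s : ℂ) : ℂ := (1 - s) * s * ((π : ℂ) ^ (-s / 2) * Gamma (s / 2 + 1)) *
  cexp (-((s + 1 / 2) * la l)) * Gamma (s + 1 / 2)

theorem WW_diff (l : ℂ) {s : ℂ} (hs : -(1 / 2) < s.re) : DifferentiableAt ℂ (WW l) s := by
  have g1 : DifferentiableAt ℂ Gamma (s / 2 + 1) := by
    refine Complex.differentiableAt_Gamma _ fun m h => ?_
    have := congrArg Complex.re h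
    simp only [add_re, div_ofNat_re, one_re, neg_re, natCast_re] at this
    have : (0 : ℝ) ≤ m := Nat.cast_nonneg m
    linarith
  have g2 : DifferentiableAt ℂ Gamma (s + 1 / 2) := by
    refine Complex.differentiableAt_Gamma _ fun m h => ?_
    have := congrArg Complex.re h
    simp only [add_re, div_ofNat_re, one_re, neg_re, natCast_re] at this
    have : (0 : ℝ) ≤ m := Nat.cast_nonneg m
    linarith
  have g3 : DifferentiableAt ℂ (fun s : ℂ => Gamma (s / 2 + 1)) s :=
    g1.comp s (f := fun s : ℂ => s / 2 + 1) (by fun_prop)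
  have g4 : DifferentiableAt ℂ (fun s : ℂ => Gamma (s + 1 / 2)) s :=
    g2.comp s (f := fun s : ℂ => s + 1 / 2) (by fun_prop)
  have g5 : DifferentiableAt ℂ (fun s : ℂ => (π : ℂ) ^ (-s / 2)) s :=
    DifferentiableAt.const_cpow (by fun_prop) (Or.inl (by exact_mod_cast Real.pi_ne_zero))
  unfold WW
  exact (((by fun_prop : DifferentiableAt ℂ (fun s : ℂ => (1 - s) * s) s).mul (g5.mul g3)).mul
    (by fun_prop)).mul g4

theorem ident_right (l : ℂ) {s : ℂ} (hs : 1 < s.re) :
    s * (1 - s) * Gammaℝ s * (1 / 2 * s * cexp (-((s + 1 / 2) * la l)) * Gamma (s + 1 / 2)) =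
      WW l s := by
  have h0 : s / 2 ≠ 0 := fun h => by
    have := congrArg Complex.re h
    simp only [div_ofNat_re, zero_re] at this
    linarith
  unfold WW
  rw [Gamma_add_one _ h0, Gammaℝ_def]
  ring

theorem ident_left (l : ℂ) {s : ℂ} (h1 : -(1 / 2) < s.re) (h2 : s.re < 0) :
    (1 - s) * s * Gammaℝ (1 - s) * (kap * (I * (cexp (-((2 * s + 1) * lb1 l)) * Gamma (2 * s + 1)) -
      cexp (-((2 * s + 1) * lb2 l)) * Gamma (2 * s + 1))) = WW l s := by
  have h0 : s ≠ 0 := fun h => by rw [h] at h2; simp at h2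
  have h0' : s / 2 ≠ 0 := div_ne_zero h0 two_ne_zero
  have g1 : Gammaℝ (1 - s) ≠ 0 := Gammaℝ_ne_zero_of_re_pos (by
    simp only [sub_re, one_re]; linarith)
  have g2 := Gammaℝ_div_Gammaℝ_one_sub (s := s) (fun n h => by
    have := congrArg Complex.re h
    simp only [neg_re, add_re, mul_re, re_ofNat, natCast_re, im_ofNat, natCast_im, mul_zero,
      sub_zero, one_re] at this
    have : (0 : ℝ) ≤ n := Nat.cast_nonneg n
    linarith)
  rw [div_eq_iff g1, Gammaℂ_def] at g2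
  have g3 := Complex.Gamma_mul_Gamma_add_half (s + 1 / 2)
  have e1 : s + 1 / 2 + 1 / 2 = s + 1 := by ring
  have e2 : 2 * (s + 1 / 2) = 2 * s + 1 := by ring
  rw [e1, e2, Gamma_add_one _ h0] at g3
  have p1 : (2 : ℂ) ^ (1 - (2 * s + 1)) = cexp (-(2 * s) * Real.log 2) := by
    have := cpow_pos_real (x := 2) two_pos (1 - (2 * s + 1))
    rw [ofReal_ofNat] at this
    rw [this]; congr 1; ring
  have p2 : (2 * π : ℂ) ^ (-s) = cexp (-s * Real.log (2 * π)) := by
    have := cpow_pos_real (x := 2 * π) (by positivity) (-s)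
    rw [← this]; push_cast; rfl
  rw [p1] at g3
  rw [p2] at g2
  set L2 : ℂ := ((Real.log 2 : ℝ) : ℂ) with hL2
  set LP : ℂ := ((Real.log (2 * π) : ℝ) : ℂ) with hLP
  have eL2 : cexp L2 = 2 := by
    rw [hL2, ← Complex.ofReal_exp, Real.exp_log two_pos, ofReal_ofNat]
  set E := cexp (-((2 * s + 1) * lb2 l)) with hE
  set U := cexp (π * s / 2 * I) with hU
  set V := cexp (-(π * s / 2) * I) with hV
  have hUV : U * V = 1 := by rw [hU, hV, ← Complex.exp_add]; simp
  have hcos : Complex.cos (π * s / 2) = (U + V) / 2 := by rw [Complex.cos]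
  have q1 : cexp (-((2 * s + 1) * lb1 l)) = E * U * U * I := by
    rw [← Complex.exp_pi_div_two_mul_I, hE, hU, ← Complex.exp_add, ← Complex.exp_add,
      ← Complex.exp_add]
    congr 1
    unfold lb1 lb2
    ring
  have q2 : cexp (-s * LP) * cexp (-(2 * s) * L2) * cexp (-((s + 1 / 2) * la l)) =
      E * U * cexp L2 * cexp (LP / 2 + π / 4 * I) := by
    rw [hE, hU, ← Complex.exp_add, ← Complex.exp_add, ← Complex.exp_add,
      ← Complex.exp_add, ← Complex.exp_add]
    congr 1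
    unfold la lb2
    rw [← hL2, ← hLP]
    ring
  rw [eL2] at q2
  have q3 : WW l s = (1 - s) * s * (s / 2 * Gammaℝ s) * cexp (-((s + 1 / 2) * la l)) *
      Gamma (s + 1 / 2) := by
    unfold WW
    rw [Gamma_add_one _ h0', Gammaℝ_def]
    ring
  rw [q3, g2, q1, hcos, kap, ← hLP]
  set K := cexp (LP / 2 + π / 4 * I)
  set A := cexp (-((s + 1 / 2) * la l))
  set B := cexp (-s * LP)
  set D := cexp (-(2 * s) * L2)
  set G0 := Gamma s
  set G1 := Gamma (s + 1 / 2)
  set G2 := Gamma (2 * s + 1)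
  set R := Gammaℝ (1 - s)
  set P : ℂ := ((√π : ℝ) : ℂ)
  have hI : I * I = -1 := I_mul_I
  linear_combination (-((1 - s) * s * R * B * A * (U + V) / 2)) * g3 -
    ((1 - s) * s * R * G2 * P * (U + V) / 2) * q2 -
    ((1 - s) * s * R * G2 * P * E * K) * hUV -
    ((1 - s) * s * R * K * P * E * U * U * G2) * hI

end

end H682Z
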