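import Pool.Agent.H682Z.Bnd
import Pool.Agent.H682Z.Carl4

/-! The bound for the dual series. -/

open MeasureTheory Filter Topology Complex Set
open scoped Real ArithmeticFunction.Moebius

namespace H682Z

noncomputable section

theorem int_poly (k : ℕ) : IntegrableOn (fun v : ℝ => (1 + v) ^ k * Real.exp (-v)) (Ioi 0) := by
  have h1 := (exp_neg_integrableOn_Ioi 0 (b := 1 / 2) (by norm_num)).const_mul
    (k.factorial / (1 / 2) ^ k * Real.exp (1 / 2))
  refine Integrable.mono' h1 (Continuous.aestronglyMeasurable (by fun_prop)) ?_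
  refine (ae_restrict_iff' measurableSet_Ioi).2 (Eventually.of_forall fun v hv => ?_)
  have hv' : (0 : ℝ) < v := hv
  have h2 := pow_exp_le k (β := 1 / 2) (by norm_num) (x := 1 + v) (by linarith)
  rw [Real.norm_of_nonneg (by positivity)]
  calc (1 + v) ^ k * Real.exp (-v) = (1 + v) ^ k * Real.exp (-(1 / 2 * (1 + v))) *
        Real.exp (1 / 2) * Real.exp (-(1 / 2) * v) := by
        rw [mul_assoc, mul_assoc, ← Real.exp_add, ← Real.exp_add]; congr 2; ring
    _ ≤ _ := by gcongr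

theorem SS_ray {a : ℂ} (ha : 0 < a.re) {C₀ : ℝ} (hC : 0 ≤ C₀) (h : ∀ N : ℕ, ‖SS 0 N‖ ≤ C₀ * √N)
    {r v : ℝ} (hr : 0 < r) (hv : 0 < v) :
    ‖SS (-a.im * r ^ 2 / (2 * π)) ⌊v / (a.re * r ^ 2)⌋₊‖ ≤
      C₀ * (1 + |a.im| / a.re) * (1 + v) * √(v / (a.re * r ^ 2)) := by
  refine (SS_dom h _ _).trans ?_
  have h1 : (⌊v / (a.re * r ^ 2)⌋₊ : ℝ) ≤ v / (a.re * r ^ 2) := Nat.floor_le (by positivity)
  have h2 : 2 * π * |-a.im * r ^ 2 / (2 * π)| * (v / (a.re * r ^ 2)) = |a.im| / a.re * v := by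
    rw [abs_div, abs_mul, abs_neg, abs_of_pos (by positivity : 0 < r ^ 2),
      abs_of_pos (by positivity : 0 < 2 * π)]
    field_simp
  have h3 : 0 ≤ |a.im| / a.re := by positivity
  calc _ ≤ C₀ * √(v / (a.re * r ^ 2)) *
        (1 + 2 * π * |-a.im * r ^ 2 / (2 * π)| * (v / (a.re * r ^ 2))) := by gcongr
    _ = C₀ * (1 + |a.im| / a.re * v) * √(v / (a.re * r ^ 2)) := by rw [h2]; ring
    _ ≤ _ := by
        rw [mul_assoc C₀ (1 + |a.im| / a.re)]
        gcongr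
        nlinarith

theorem G_sup {a : ℂ} (ha : 0 < a.re) {C₀ : ℝ} (hC : 0 ≤ C₀) (h : ∀ N : ℕ, ‖SS 0 N‖ ≤ C₀ * √N) :
    ∃ A : ℝ, ∀ r, 0 < r → ‖ser (al a) r‖ ≤ A := by
  refine ⟨_, fun r hr => G_bound ha hr (σ := fun v => C₀ * (1 + |a.im| / a.re) * (1 + v))
    (fun v hv => SS_ray ha hC h hr hv) ?_⟩
  refine IntegrableOn.congr_fun ((int_poly 3).const_mul (C₀ * (1 + |a.im| / a.re)))
    (fun v _ => ?_) measurableSet_Ioi
  ring

/-- a constant -/
def J0 : ℝ := ∫ v in Ioi (0 : ℝ), (1 + v) ^ 2 * Real.exp (-v)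

theorem G_lim {a : ℂ} (ha : 0 < a.re) (ha' : a.im ≤ 0) {C : ℝ} (hC : 0 ≤ C)
    (H : ∀ β : ℝ, 0 ≤ β → ∀ᶠ N : ℕ in atTop, ‖SS (β / N) N‖ ≤ C * √N) :
    ∀ᶠ r in 𝓝[>] 0, ‖ser (al a) r‖ ≤ ‖a‖ / a.re ^ 2 * (J0 * (C + 1) + 1) := by
  obtain ⟨C₀, hC₀, h⟩ := SS_global (C := C) (by simpa using H 0 le_rfl)
  let σ : ℝ → ℝ → ℝ := fun r v => max (‖SS (-a.im * r ^ 2 / (2 * π)) ⌊v / (a.re * r ^ 2)⌋₊‖ /
    √(v / (a.re * r ^ 2))) (C + 1)
  have hσ0 : ∀ r v, 0 ≤ σ r v := fun r v => le_trans (by linarith) (le_max_right _ _)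
  set M := C₀ * (1 + |a.im| / a.re) + (C + 1) with hM
  have hσ1 : ∀ r v, 0 < r → 0 < v → σ r v ≤ M * (1 + v) := by
    intro r v hr hv
    have h1 : 0 ≤ C₀ * (1 + |a.im| / a.re) := by positivity
    refine max_le ?_ (by rw [hM]; nlinarith)
    rw [div_le_iff₀ (Real.sqrt_pos.2 (by positivity))]
    refine (SS_ray ha hC₀ h hr hv).trans ?_
    gcongr
    rw [hM]; linarith
  have hm : ∀ r, AEStronglyMeasurable (fun v => (1 + v) ^ 2 * Real.exp (-v) * σ r v)
      (volume.restrict (Ioi 0)) := by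
    intro r
    refine Measurable.aestronglyMeasurable (Measurable.mul (by fun_prop) ?_)
    refine Measurable.max (Measurable.div ?_ (by fun_prop)) measurable_const
    exact (measurable_from_nat (f := fun N : ℕ => ‖SS (-a.im * r ^ 2 / (2 * π)) N‖)).comp
      (Nat.measurable_floor.comp (by fun_prop))
  have hb : ∀ r, 0 < r → ∀ᵐ v ∂(volume.restrict (Ioi (0 : ℝ))),
      ‖(1 + v) ^ 2 * Real.exp (-v) * σ r v‖ ≤ M * ((1 + v) ^ 3 * Real.exp (-v)) := by
    intro r hr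
    refine (ae_restrict_iff' measurableSet_Ioi).2 (Eventually.of_forall fun v hv => ?_)
    have hv' : (0 : ℝ) < v := hv
    rw [Real.norm_of_nonneg (mul_nonneg (by positivity) (hσ0 r v))]
    calc _ ≤ (1 + v) ^ 2 * Real.exp (-v) * (M * (1 + v)) :=
          mul_le_mul_of_nonneg_left (hσ1 r v hr hv') (by positivity)
      _ = _ := by ring
  have hlim : Tendsto (fun r => ∫ v in Ioi (0 : ℝ), (1 + v) ^ 2 * Real.exp (-v) * σ r v) (𝓝[>] 0)
      (𝓝 (∫ v in Ioi (0 : ℝ), (1 + v) ^ 2 * Real.exp (-v) * (C + 1))) := by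
    refine tendsto_integral_filter_of_dominated_convergence
      (fun v => M * ((1 + v) ^ 3 * Real.exp (-v))) (Eventually.of_forall hm) ?_
      ((int_poly 3).const_mul M) ?_
    · filter_upwards [self_mem_nhdsWithin] with r hr using hb r hr
    · refine (ae_restrict_iff' measurableSet_Ioi).2 (Eventually.of_forall fun v hv => ?_)
      have hv' : (0 : ℝ) < v := hv
      refine Tendsto.const_mul _ (tendsto_const_nhds.congr' ?_)
      have hβ : 0 ≤ -a.im * v / (2 * π * a.re) :=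
        div_nonneg (mul_nonneg (by linarith) hv'.le) (by positivity)
      have h1 := SS_real hC hβ (H _ hβ)
      have h2 : Tendsto (fun r : ℝ => v / (a.re * r ^ 2)) (𝓝[>] 0) atTop := by
        have h3 : Tendsto (fun r : ℝ => a.re * r ^ 2) (𝓝[>] 0) (𝓝[>] 0) := by
          refine tendsto_nhdsWithin_iff.2 ⟨?_, ?_⟩
          · have : Continuous (fun r : ℝ => a.re * r ^ 2) := by fun_prop
            simpa using (this.tendsto 0).mono_left nhdsWithin_le_nhds
          · filter_upwards [self_mem_nhdsWithin] with r hr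
            have : (0 : ℝ) < r := hr
            show 0 < a.re * r ^ 2
            positivity
        exact (tendsto_inv_nhdsGT_zero.comp h3).const_mul_atTop hv'
      filter_upwards [h2.eventually h1, self_mem_nhdsWithin] with r e1 hr
      have hr' : (0 : ℝ) < r := hr
      have e2 : -a.im * v / (2 * π * a.re) / (v / (a.re * r ^ 2)) = -a.im * r ^ 2 / (2 * π) := by
        field_simp
      rw [e2] at e1
      refine (max_eq_right ?_).symm
      rw [div_le_iff₀ (Real.sqrt_pos.2 (by positivity))]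
      exact e1
  rw [integral_mul_const] at hlim
  filter_upwards [hlim.eventually (ge_mem_nhds (lt_add_one _)), self_mem_nhdsWithin] with r e1 hr
  have hr' : (0 : ℝ) < r := hr
  refine (G_bound ha hr' (σ := σ r) ?_ ?_).trans
    (mul_le_mul_of_nonneg_left e1 (by positivity))
  · intro v hv
    rw [← div_le_iff₀ (Real.sqrt_pos.2 (by positivity))]
    exact le_max_left _ _
  · exact Integrable.mono' ((int_poly 3).const_mul M) (hm r) (hb r hr')

/-- the dual kernel -/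
def tt (b₁ b₂ : ℂ) (ρ : ℝ) : ℂ := kap * (I * ta b₁ ρ⁻¹ - ta b₂ ρ⁻¹)

theorem tt_le {b₁ b₂ : ℂ} (h1 : 0 < b₁.re) (h2 : 0 < b₂.re) (ρ : ℝ) (hρ : 0 < ρ) :
    ‖tt b₁ b₂ ρ‖ ≤ ‖kap‖ * 2 / ρ ^ 2 := by
  unfold tt
  rw [norm_mul, mul_div_assoc]
  refine mul_le_mul_of_nonneg_left ((norm_sub_le _ _).trans ?_) (norm_nonneg _)
  rw [norm_mul, Complex.norm_I, one_mul]
  have := ta_le h1 ρ hρ
  have := ta_le h2 ρ hρ
  have : 2 / ρ ^ 2 = 1 / ρ ^ 2 + 1 / ρ ^ 2 := by ring
  linarith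

theorem tt_sup {b₁ b₂ : ℂ} (h1 : 0 < b₁.re) (h2 : 0 < b₂.re) {C₀ : ℝ} (hC : 0 ≤ C₀)
    (h : ∀ N : ℕ, ‖SS 0 N‖ ≤ C₀ * √N) : ∃ A : ℝ, ∀ r, 0 < r → ‖ser (tt b₁ b₂) r‖ ≤ A := by
  obtain ⟨A₁, hA₁⟩ := T_bound h1 hC h
  obtain ⟨A₂, hA₂⟩ := T_bound h2 hC h
  refine ⟨‖kap‖ * (A₁ + A₂), fun r hr => ?_⟩
  have s1 := (ser_summable (ta_le h1) hr).hasSum
  have s2 := (ser_summable (ta_le h2) hr).hasSum
  have s3 := ((s1.mul_left I).sub s2).mul_left kap
  have e : ser (tt b₁ b₂) r =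
      kap * (I * ser (fun ρ => ta b₁ ρ⁻¹) r - ser (fun ρ => ta b₂ ρ⁻¹) r) := by
    refine HasSum.tsum_eq (HasSum.congr_fun s3 fun n => ?_)
    unfold tt; ring
  rw [e, norm_mul]
  refine mul_le_mul_of_nonneg_left ((norm_sub_le _ _).trans ?_) (norm_nonneg _)
  rw [norm_mul, Complex.norm_I, one_mul]
  exact add_le_add (hA₁ r hr) (hA₂ r hr)

theorem key_bound {C : ℝ} (hC : 0 ≤ C)
    (H : ∀ β : ℝ, 0 ≤ β → ∀ᶠ N : ℕ in atTop, ‖SS (β / N) N‖ ≤ C * √N) :
    ∃ K : ℝ, 0 ≤ K ∧ ∀ l : ℂ, 0 < l.im → l.im < π / 2 → 1 ≤ (cexp (la l)).re →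
      (cexp (la l)).im ≤ 0 →
      ‖ser (tt (cexp (lb1 l)) (cexp (lb2 l))) 1‖ ≤ K * (‖cexp (la l)‖ / (cexp (la l)).re ^ 2) := by
  obtain ⟨c₀, hc₀, hcar⟩ := carleman
  obtain ⟨C₀, hC₀, h⟩ := SS_global (C := C) (by simpa using H 0 le_rfl)
  set Z := ∑' n : ℕ, 1 / ((n : ℝ) * √n) with hZ
  have hZ0 : 0 ≤ Z := tsum_nonneg fun n => by positivity
  have hJ : 0 ≤ J0 := setIntegral_nonneg measurableSet_Ioi fun v _ => by positivity
  refine ⟨8 * Z + c₀ * (J0 * (C + 1) + 2), by positivity, fun l hl1 hl2 ha1 ha2 => ?_⟩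
  have i1 : (la l).im = -(π / 2) + 2 * l.im := by simp [la]
  have i2 : (lb1 l).im = -(π / 2) + l.im := by
    simp only [lb1, add_im, sub_im, ofReal_im]; simp
  have i3 : (lb2 l).im = l.im := by
    simp only [lb2, add_im, ofReal_im]; simp
  have hpi := Real.pi_pos
  have a1 : -(π / 2) < (la l).im := by linarith
  have a2 : (la l).im < π / 2 := by linarith
  have b1 : -(π / 2) < (lb1 l).im := by linarith
  have b2 : (lb1 l).im < π / 2 := by linarith
  have c1 : -(π / 2) < (lb2 l).im := by linarith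
  have c2 : (lb2 l).im < π / 2 := by linarith
  set a := cexp (la l) with ha
  set b₁ := cexp (lb1 l) with hb₁
  set b₂ := cexp (lb2 l) with hb₂
  have ha0 : 0 < a.re := by linarith
  have hb1 : 0 < b₁.re := exp_re_pos b1 b2
  have hb2 : 0 < b₂.re := exp_re_pos c1 c2
  obtain ⟨A₁, hA₁⟩ := G_sup ha0 hC₀ h
  obtain ⟨A₂, hA₂⟩ := tt_sup hb1 hb2 hC₀ h
  set D₁ := (‖a‖ * (6 / a.re ^ 3) + 2 / a.re ^ 2) * Z with hD₁
  set D₂ := ‖kap‖ * 2 * Z with hD₂
  set A := max (max A₁ A₂) (max D₁ D₂) with hA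
  have hY : 0 < ‖a‖ / a.re ^ 2 := div_pos (ha0.trans_le (Complex.re_le_norm a)) (by positivity)
  have hq2 : ∀ r, 0 < r → ‖ser (tt b₁ b₂) r⁻¹‖ ≤ D₂ * r ^ 2 := fun r hr => by
    refine (ser_le (tt_le hb1 hb2) (inv_pos.2 hr)).trans (le_of_eq ?_)
    rw [hD₂, ← hZ]; field_simp
  have httc : ContinuousOn (tt b₁ b₂) (Ioi 0) :=
    continuousOn_const.mul ((continuousOn_const.mul (ta_cont b₁)).sub (ta_cont b₂))
  have key := hcar (ser (al a)) (fun r => ser (tt b₁ b₂) r⁻¹) A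
    (‖a‖ / a.re ^ 2 * (J0 * (C + 1) + 2)) (fun w => XX ((1 + w) / 2)) (fun w => WW l ((1 + w) / 2))
    (ser_cont (al_le ha0) (al_cont a).continuousOn)
    ((ser_cont (tt_le hb1 hb2) httc).comp (continuousOn_inv₀.mono fun x hx => ne_of_gt hx)
      fun x hx => inv_pos.2 (show (0 : ℝ) < x from hx))
    ?_ ?_ ?_ ?_ ?_ ?_ ?_ ?_ 1 one_pos
  · rw [inv_one] at key
    have h1 := ser_le (al_le ha0) one_pos
    rw [← hZ, one_pow, div_one] at h1
    have h2 : ‖a‖ * (6 / a.re ^ 3) + 2 / a.re ^ 2 ≤ 8 * (‖a‖ / a.re ^ 2) := by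
      have h3 : 1 ≤ ‖a‖ := ha1.trans (Complex.re_le_norm a)
      have h4 : 6 / a.re ^ 3 ≤ 6 / a.re ^ 2 :=
        div_le_div_of_nonneg_left (by norm_num) (by positivity)
          (pow_le_pow_right₀ ha1 (by norm_num))
      have h5 : 2 / a.re ^ 2 ≤ 2 * ‖a‖ / a.re ^ 2 := by gcongr; linarith
      calc _ ≤ ‖a‖ * (6 / a.re ^ 2) + 2 * ‖a‖ / a.re ^ 2 := by gcongr
        _ = _ := by ring
    have h3 := norm_sub_le (ser (al a) 1) (ser (al a) 1 - ser (tt b₁ b₂) 1)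
    rw [sub_sub_cancel] at h3
    have h4 := mul_le_mul_of_nonneg_right h2 hZ0
    nlinarith
  · intro r hr
    refine ⟨(hA₁ r hr).trans ((le_max_left _ _).trans (le_max_left _ _)),
      (ser_le (al_le ha0) hr).trans ?_⟩
    exact div_le_div_of_nonneg_right ((le_max_left _ _).trans (le_max_right _ _)) (by positivity)
  · intro r hr
    refine ⟨(hA₂ _ (inv_pos.2 hr)).trans ((le_max_right _ _).trans (le_max_left _ _)),
      (hq2 r hr).trans ?_⟩
    exact mul_le_mul_of_nonneg_right ((le_max_right _ _).trans (le_max_right _ _)) (by positivity)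
  · exact (XX_diff.comp (f := fun w : ℂ => (1 + w) / 2) (by fun_prop)).differentiableOn
  · intro w hw
    refine ((WW_diff l (s := (1 + w) / 2) ?_).comp w (f := fun w : ℂ => (1 + w) / 2)
      (by fun_prop)).differentiableWithinAt
    simp only [div_ofNat_re, add_re, one_re]; linarith [hw.1]
  · refine ⟨1, by norm_num, by norm_num, ?_⟩
    simp [XX]
  · intro w h1 h2
    have hs : 1 < ((1 + w) / 2).re := by
      simp only [div_ofNat_re, add_re, one_re]; linarith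
    have hm := hm_al a1 a2 (w := w) (by linarith)
    rw [ser_mellin h1 hm.1, hm.2, ← mul_assoc, XX_mul hs, ← ident_right l hs]
    have : w / 2 + 1 = (1 + w) / 2 + 1 / 2 := by ring
    rw [this]
  · intro w h1 h2
    have hw : 1 < (-w).re := by rw [neg_re]; linarith
    have hs : 1 < ((1 + -w) / 2).re := by
      simp only [div_ofNat_re, add_re, one_re]; linarith
    have m1 := hm_ta b1 b2 h1
    have m2 := hm_ta c1 c2 h1
    have m3 := hasMellin_const_smul m1.1 I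
    have m4 := hasMellin_sub m3.1 m2.1
    have m5 := hasMellin_const_smul m4.1 kap
    rw [m4.2, m3.2, m1.2, m2.2] at m5
    set g : ℝ → ℂ := fun t => kap • (I • ta (cexp (lb1 l)) t - ta (cexp (lb2 l)) t) with hg
    have e1 : tt b₁ b₂ = fun ρ => g ρ⁻¹ := rfl
    have m6 : MellinConvergent (tt b₁ b₂) (-w) := by
      have e2 : tt b₁ b₂ = fun ρ => g (ρ ^ (-1 : ℝ)) := by
        rw [e1]; ext ρ; rw [Real.rpow_neg_one]
      rw [e2, MellinConvergent.comp_rpow (by norm_num)]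
      have : -w / ((-1 : ℝ) : ℂ) = w := by push_cast; ring
      rw [this]; exact m5.1
    rw [mellin_comp_inv, ser_mellin hw m6, e1, mellin_comp_inv, neg_neg, m5.2, ← mul_assoc]
    have e3 : (1 + w) / 2 = 1 - (1 + -w) / 2 := by ring
    have e4 : XX ((1 + w) / 2) = XX ((1 + -w) / 2) := by rw [e3, XX_symm]
    have e5 : (1 + -w) / 2 = 1 - (1 + w) / 2 := by ring
    rw [e4, XX_mul hs, ← ident_left l (s := (1 + w) / 2)
      (by simp only [div_ofNat_re, add_re, one_re]; linarith)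
      (by simp only [div_ofNat_re, add_re, one_re]; linarith), e5]
    have e6 : w + 2 = 2 * ((1 + w) / 2) + 1 := by ring
    rw [e6, sub_sub_cancel, smul_eq_mul, smul_eq_mul]
  · have h1 : Tendsto (fun r : ℝ => D₂ * r ^ 2) (𝓝[>] 0) (𝓝 0) := by
      have : Continuous (fun r : ℝ => D₂ * r ^ 2) := by fun_prop
      simpa using (this.tendsto 0).mono_left nhdsWithin_le_nhds
    filter_upwards [G_lim ha0 ha2 hC H, h1.eventually (ge_mem_nhds hY), self_mem_nhdsWithin]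
      with r e1 e2 hr
    have := hq2 r hr
    refine (norm_sub_le _ _).trans ?_
    linarith

end

end H682Z
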