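import Pool.Agent.H682Z.Key
import Pool.Agent.H682Z.Besic

/-! The final contradiction. -/

open MeasureTheory Filter Topology Complex Set
open scoped Real ArithmeticFunction.Moebius

namespace H682Z

noncomputable section

theorem align : ∃ ξ : ℕ → ℝ, Tendsto ξ atTop atTop ∧ ∀ n : ℕ, Squarefree n →
    Tendsto (fun k => cexp (2 * π * I * ((ξ k * (2 / √n) : ℝ) : ℂ))) atTop (𝓝 (μ n : ℂ)) := by
  classical
  have h := fun k : ℕ => Pool.Agent.Helper352.kronecker
    (ι := (Finset.range k).filter Squarefree) (fun n => 2 / √((n : ℕ) : ℝ))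
    (fun n => (1 - (μ n : ℝ)) / 4)
    (fun c hc => ⟨0, by
      rw [besicovitch _ (fun n hn => (Finset.mem_filter.1 hn).2) c hc]; simp⟩)
    (1 / ((k : ℝ) + 1)) (by positivity) k
  choose t ht1 ht2 using h
  refine ⟨t, tendsto_atTop_mono (fun k => (ht1 k).le) tendsto_natCast_atTop_atTop, fun n hn => ?_⟩
  have hmu : cexp (2 * π * I * (((1 - (μ n : ℝ)) / 4 : ℝ) : ℂ)) = (μ n : ℂ) := by
    rcases ArithmeticFunction.moebius_ne_zero_iff_eq_or.1
      (ArithmeticFunction.moebius_ne_zero_iff_squarefree.2 hn) with h | h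
    · simp [h]
    · rw [h]
      have : (2 * π * I * (((1 - ((-1 : ℤ) : ℝ)) / 4 : ℝ) : ℂ)) = π * I := by push_cast; ring
      rw [this, Complex.exp_pi_mul_I]; simp
  rw [← hmu, tendsto_iff_norm_sub_tendsto_zero]
  have h0 := (tendsto_one_div_add_atTop_nhds_zero_nat (𝕜 := ℝ)).const_mul (2 * π)
  rw [mul_zero] at h0
  refine squeeze_zero' (Eventually.of_forall fun _ => norm_nonneg _) ?_ h0
  filter_upwards [eventually_gt_atTop n] with k hk
  obtain ⟨m, hm⟩ := ht2 k ⟨n, Finset.mem_filter.2 ⟨Finset.mem_range.2 hk, hn⟩⟩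
  have e : cexp (2 * π * I * (((1 - (μ n : ℝ)) / 4 : ℝ) : ℂ)) =
      cexp (2 * π * I * (((1 - (μ n : ℝ)) / 4 + m : ℝ) : ℂ)) := by
    rw [← mul_one (cexp _), ← Complex.exp_int_mul_two_pi_mul_I m, ← Complex.exp_add]
    congr 1; push_cast; ring
  rw [e]
  refine (norm_e_sub _ _).trans (mul_le_mul_of_nonneg_left ?_ (by positivity))
  rw [← sub_sub]
  exact hm.le

/-- aligned coefficients -/
def uu (η : ℝ) (n : ℕ) : ℝ := (μ n : ℝ) ^ 2 * (1 / (n * √n)) * Real.exp (-(4 * π * η / √n))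

theorem uu_nonneg (η : ℝ) (n : ℕ) : 0 ≤ uu η n := by unfold uu; positivity

theorem uu_summable {η : ℝ} (hη : 0 ≤ η) : Summable (uu η) := by
  refine Summable.of_nonneg_of_le (uu_nonneg η) (fun n => ?_) summable_32
  unfold uu
  have h1 : (μ n : ℝ) ^ 2 ≤ 1 := by
    rw [sq_le_one_iff_abs_le_one]
    exact_mod_cast ArithmeticFunction.abs_moebius_le_one
  have h2 : Real.exp (-(4 * π * η / √n)) ≤ 1 := Real.exp_le_one_iff.2 (by
    have : 0 ≤ 4 * π * η / √n := by positivity
    linarith)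
  calc _ ≤ 1 * (1 / (n * √n)) * 1 := by gcongr
    _ = _ := by ring

theorem uu_bound {C : ℝ} (hC : 0 ≤ C)
    (H : ∀ β : ℝ, 0 ≤ β → ∀ᶠ N : ℕ in atTop, ‖SS (β / N) N‖ ≤ C * √N) :
    ∃ K : ℝ, ∀ η : ℝ, 1 ≤ η → ∑' n, uu η n ≤ K / η ^ 2 := by
  obtain ⟨K, hK0, hK⟩ := key_bound hC H
  obtain ⟨ξ, hξ, hal⟩ := align
  have hkap : 0 < ‖kap‖ := norm_pos_iff.2 kap_ne
  refine ⟨K / ‖kap‖, fun η hη => ?_⟩
  have hpi := Real.pi_gt_three
  have el2 : cexp ((Real.log 2 : ℝ) : ℂ) = 2 := by
    rw [← Complex.ofReal_exp, Real.exp_log two_pos, ofReal_ofNat]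
  have elp : cexp ((Real.log (2 * π) : ℝ) : ℂ) = 2 * π := by
    rw [← Complex.ofReal_exp, Real.exp_log (by positivity)]; push_cast; rfl
  have eI : cexp (π / 2 * I) = I := Complex.exp_pi_div_two_mul_I
  have hb : ∀ x : ℝ, η ≤ x →
      ‖ser (tt (-(4 * π * I * (x + η * I))) (4 * π * (x + η * I))) 1‖ ≤ K / η ^ 2 := by
    intro x hx
    have hx0 : 0 < x := by linarith
    set ζ : ℂ := x + η * I with hζ
    have hre : ζ.re = x := by simp [hζ]
    have him : ζ.im = η := by simp [hζ]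
    have hζ0 : ζ ≠ 0 := fun h => by rw [h] at hre; simp at hre; linarith
    have e0 := Complex.exp_log hζ0
    have e1 : cexp (la (log ζ)) = -(2 * π * I * ζ ^ 2) := by
      unfold la
      rw [two_mul (log ζ), Complex.exp_add, Complex.exp_add, Complex.exp_sub, e0, elp, eI,
        Complex.div_I]
      ring
    have e2 : cexp (lb1 (log ζ)) = -(4 * π * I * ζ) := by
      unfold lb1
      rw [Complex.exp_add, Complex.exp_sub, Complex.exp_add, e0, elp, el2, eI, Complex.div_I]
      ring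
    have e3 : cexp (lb2 (log ζ)) = 4 * π * ζ := by
      unfold lb2
      rw [Complex.exp_add, Complex.exp_add, e0, elp, el2]
      ring
    have r1 : (-(2 * π * I * ζ ^ 2)).re = 4 * π * x * η := by
      simp [sq, hre, him]; ring
    have r2 : (-(2 * π * I * ζ ^ 2)).im = -(2 * π * (x ^ 2 - η ^ 2)) := by
      simp [sq, hre, him]
    have r3 : ‖-(2 * π * I * ζ ^ 2)‖ = 2 * π * (x ^ 2 + η ^ 2) := by
      rw [norm_neg, norm_mul, norm_pow, Complex.sq_norm, Complex.normSq_apply, hre, him]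
      simp [abs_of_pos Real.pi_pos, sq]
    have l1 : 0 < (log ζ).im := by
      rw [Complex.log_im]
      refine lt_of_le_of_ne (Complex.arg_nonneg_iff.2 (by rw [him]; linarith)) fun h => ?_
      have := (Complex.arg_eq_zero_iff.1 h.symm).2
      rw [him] at this; linarith
    have l2 : (log ζ).im < π / 2 := by
      rw [Complex.log_im]
      exact (abs_lt.1 (Complex.abs_arg_lt_pi_div_two_iff.2 (Or.inl (by rw [hre]; exact hx0)))).2
    have hxη : 1 ≤ x * η := by nlinarith
    have key := hK (log ζ) l1 l2 (by rw [e1, r1]; nlinarith)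
      (by
        rw [e1, r2]
        have : 0 ≤ x ^ 2 - η ^ 2 := by nlinarith
        have : 0 ≤ 2 * π * (x ^ 2 - η ^ 2) := by positivity
        linarith)
    rw [e1, e2, e3, r1, r3] at key
    refine key.trans ?_
    rw [div_eq_mul_one_div K]
    refine mul_le_mul_of_nonneg_left ?_ hK0
    rw [div_le_div_iff₀ (by positivity) (by positivity)]
    have h1 : x ^ 2 + η ^ 2 ≤ 2 * x ^ 2 := by nlinarith
    have h2 : 4 * π ≤ 16 * π ^ 2 := by nlinarith
    calc 2 * π * (x ^ 2 + η ^ 2) * η ^ 2 ≤ 2 * π * (2 * x ^ 2) * η ^ 2 := by gcongr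
      _ = 4 * π * (x ^ 2 * η ^ 2) := by ring
      _ ≤ 16 * π ^ 2 * (x ^ 2 * η ^ 2) := by gcongr
      _ = _ := by ring
  have hre1 : ∀ x : ℝ, 0 < (-(4 * π * I * (x + η * I))).re := fun x => by
    simp; positivity
  have hre2 : ∀ x : ℝ, (4 * π * (x + η * I) : ℂ).re = 4 * π * x := fun x => by simp
  have hlim : Tendsto (fun k => ser (tt (-(4 * π * I * (ξ k + η * I))) (4 * π * (ξ k + η * I))) 1)
      atTop (𝓝 (∑' n : ℕ, kap * I * (uu η n : ℂ))) := by
    refine tendsto_tsum_of_dominated_convergence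
      (bound := fun n : ℕ => ‖kap‖ * 2 / 1 ^ 2 * (1 / ((n : ℝ) * √n))) (summable_32.mul_left _) ?_ ?_
    · intro n
      by_cases hn : Squarefree n
      swap
      · simp [uu, ArithmeticFunction.moebius_eq_zero_of_not_squarefree hn]
      have hn' : (0 : ℝ) < n := by exact_mod_cast Nat.pos_of_ne_zero hn.ne_zero
      have hs := Real.sqrt_pos.2 hn'
      have hs' := sqrt_ne hn'
      have h3 : (n : ℂ) = ((√n : ℝ) : ℂ) * ((√n : ℝ) : ℂ) := by
        exact_mod_cast (Real.mul_self_sqrt hn'.le).symm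
      have t1 : Tendsto (fun k => cexp (-(4 * π * (ξ k + η * I) * (((√n * 1)⁻¹ : ℝ) : ℂ)))) atTop
          (𝓝 0) := by
        rw [tendsto_zero_iff_norm_tendsto_zero]
        simp only [Complex.norm_exp, neg_re, Complex.re_mul_ofReal, hre2]
        refine Real.tendsto_exp_neg_atTop_nhds_zero.comp ?_
        exact (hξ.const_mul_atTop (by positivity)).atTop_mul_const (by positivity)
      have t2 := (((((hal n hn).mul_const (cexp (-((4 * π * η / √n : ℝ) : ℂ)))).const_mul
        (((((√n * 1)⁻¹ : ℝ) : ℂ)) ^ 2)).const_mul I).sub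
        (t1.const_mul (((((√n * 1)⁻¹ : ℝ) : ℂ)) ^ 2))).const_mul kap |>.const_mul
        ((μ n : ℂ) / (√n : ℝ))
      convert t2 using 2 with k
      · unfold tt ta
        rw [← Complex.exp_add]
        congr 6
        push_cast
        field_simp
        linear_combination (4 * (η : ℂ)) * I_mul_I
      · unfold uu
        push_cast
        generalize cexp (-(4 * π * η / ((√n : ℝ) : ℂ))) = E
        generalize ((√n : ℝ) : ℂ) = y at *
        rw [h3]
        field_simp
        ring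
    · filter_upwards [hξ.eventually (eventually_gt_atTop 0)] with k hk n
      exact term_le (tt_le (hre1 _) (by rw [hre2]; positivity)) one_pos n
  have h1 := le_of_tendsto hlim.norm ((hξ.eventually (eventually_ge_atTop η)).mono fun k hk =>
    hb _ hk)
  rw [tsum_mul_left, ← Complex.ofReal_tsum, norm_mul, norm_mul, Complex.norm_I, mul_one,
    Complex.norm_real, Real.norm_of_nonneg (tsum_nonneg (uu_nonneg η))] at h1
  rw [div_right_comm, le_div_iff₀ hkap]
  linarith

theorem main (C : ℝ) : ∃ β : ℝ, 0 ≤ β ∧ ∃ᶠ N : ℕ in atTop, C * √N < ‖SS (β / N) N‖ := by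
  by_contra hcon
  have H : ∀ β : ℝ, 0 ≤ β → ∀ᶠ N : ℕ in atTop, ‖SS (β / N) N‖ ≤ max C 0 * √N := by
    intro β hβ
    have h1 : ¬ ∃ᶠ N : ℕ in atTop, C * √N < ‖SS (β / N) N‖ := fun h => hcon ⟨β, hβ, h⟩
    rw [not_frequently] at h1
    filter_upwards [h1] with N hN
    exact (not_lt.1 hN).trans (mul_le_mul_of_nonneg_right (le_max_left _ _) (Real.sqrt_nonneg _))
  obtain ⟨K, hK⟩ := uu_bound (le_max_right C 0) H
  have hK0 : 0 ≤ K := by
    have := (tsum_nonneg (uu_nonneg 1)).trans (hK 1 le_rfl)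
    simpa using this
  refine not_summable_one_div_on_primes (summable_of_sum_le
    (c := 2 * Real.exp (4 * π) * (K * 2)) (fun n => ?_) fun s => ?_)
  · exact Set.indicator_nonneg (fun _ _ => by positivity) n
  set J := s.sup id + 1 with hJ
  have h1 : ∀ n ∈ s, Set.indicator {p : ℕ | p.Prime} (fun n : ℕ => (1 : ℝ) / n) n ≤
      2 * Real.exp (4 * π) * ∑ j ∈ Finset.range J, (2 : ℝ) ^ j * uu (2 ^ j) n := by
    intro n hn
    have hnn : ∀ j ∈ Finset.range J, 0 ≤ (2 : ℝ) ^ j * uu (2 ^ j) n := fun j _ =>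
      mul_nonneg (by positivity) (uu_nonneg _ _)
    by_cases hp : n.Prime
    swap
    · rw [Set.indicator_of_notMem (by simpa using hp)]
      exact mul_nonneg (by positivity) (Finset.sum_nonneg hnn)
    rw [Set.indicator_of_mem (by simpa using hp)]
    have hj : Nat.log 4 n ∈ Finset.range J := by
      rw [Finset.mem_range, hJ, Nat.lt_succ_iff]
      exact (Nat.log_le_self 4 n).trans (Finset.le_sup (f := id) hn)
    refine le_trans ?_ (mul_le_mul_of_nonneg_left (Finset.single_le_sum hnn hj) (by positivity))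
    set j := Nat.log 4 n
    have hn' : (0 : ℝ) < n := by exact_mod_cast hp.pos
    have hs := Real.sqrt_pos.2 hn'
    have g1 : (4 : ℝ) ^ j ≤ n := by exact_mod_cast Nat.pow_log_le_self 4 hp.ne_zero
    have g2 : (n : ℝ) ≤ 4 ^ (j + 1) := by
      exact_mod_cast (Nat.lt_pow_succ_log_self (by norm_num : 1 < 4) n).le
    have g0 : ∀ i : ℕ, (4 : ℝ) ^ i = (2 ^ i) ^ 2 := fun i => by
      rw [← pow_mul, mul_comm, pow_mul]; norm_num
    have g3 : (2 : ℝ) ^ j ≤ √n := Real.le_sqrt_of_sq_le (by rw [← g0]; exact g1)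
    have g4 : √(n : ℝ) ≤ 2 ^ (j + 1) := Real.sqrt_le_iff.2 ⟨by positivity, by rw [← g0]; exact g2⟩
    have g5 : Real.exp (-(4 * π)) ≤ Real.exp (-(4 * π * 2 ^ j / √n)) := by
      refine Real.exp_le_exp.2 (neg_le_neg ?_)
      rw [div_le_iff₀ hs]
      gcongr
    unfold uu
    rw [ArithmeticFunction.moebius_apply_prime hp]
    calc (1 : ℝ) / n = Real.exp (4 * π) * (√n * (1 / (n * √n)) * Real.exp (-(4 * π))) := by
          rw [Real.exp_neg]; field_simp
      _ ≤ Real.exp (4 * π) * (2 ^ (j + 1) * (1 / (n * √n)) *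
            Real.exp (-(4 * π * 2 ^ j / √n))) := by gcongr
      _ = _ := by push_cast; ring
  refine (Finset.sum_le_sum h1).trans ?_
  rw [← Finset.mul_sum, Finset.sum_comm]
  refine mul_le_mul_of_nonneg_left ?_ (by positivity)
  calc ∑ j ∈ Finset.range J, ∑ n ∈ s, (2 : ℝ) ^ j * uu (2 ^ j) n
      ≤ ∑ j ∈ Finset.range J, K * (1 / 2) ^ j := by
        refine Finset.sum_le_sum fun j _ => ?_
        rw [← Finset.mul_sum]
        have h2 := ((uu_summable (η := 2 ^ j) (by positivity)).sum_le_tsum s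
          (fun n _ => uu_nonneg _ n)).trans (hK _ (one_le_pow₀ (by norm_num)))
        calc _ ≤ (2 : ℝ) ^ j * (K / (2 ^ j) ^ 2) := mul_le_mul_of_nonneg_left h2 (by positivity)
          _ = _ := by rw [one_div, inv_pow]; field_simp
    _ ≤ K * 2 := by
        rw [← Finset.mul_sum]
        exact mul_le_mul_of_nonneg_left (sum_geometric_two_le _) hK0

end

end H682Z
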