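import Pool.Agent.H682Z.Abel

/-! The series `∑ μ(n) n^(-1/2) φ(√n r)` and its Mellin transform. -/

open MeasureTheory Filter Topology Complex Set
open scoped Real ArithmeticFunction.Moebius

namespace H682Z

noncomputable section

/-- the series attached to `φ` -/
def ser (φ : ℝ → ℂ) (r : ℝ) : ℂ := ∑' n : ℕ, (μ n : ℂ) / (√n : ℝ) * φ (√n * r)

theorem summable_32 : Summable (fun n : ℕ => 1 / ((n : ℝ) * √n)) := by
  have h := Real.summable_one_div_nat_rpow (p := 3 / 2) |>.2 (by norm_num)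
  refine h.congr fun n => ?_
  rw [Real.sqrt_eq_rpow, show (3 / 2 : ℝ) = 1 + 1 / 2 by norm_num,
    Real.rpow_add' (Nat.cast_nonneg n) (by norm_num), Real.rpow_one]

theorem term_le {φ : ℝ → ℂ} {D : ℝ} (hD : ∀ ρ, 0 < ρ → ‖φ ρ‖ ≤ D / ρ ^ 2) {r : ℝ} (hr : 0 < r)
    (n : ℕ) : ‖(μ n : ℂ) / (√n : ℝ) * φ (√n * r)‖ ≤ D / r ^ 2 * (1 / ((n : ℝ) * √n)) := by
  rcases Nat.eq_zero_or_pos n with rfl | hn
  · simp
  have hn' : (0 : ℝ) < n := by exact_mod_cast hn
  have hs : 0 < √(n : ℝ) := Real.sqrt_pos.2 hn'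
  rw [norm_mul, norm_div, Complex.norm_real, Real.norm_of_nonneg hs.le]
  have h1 := hD (√n * r) (mul_pos hs hr)
  rw [mul_pow, Real.sq_sqrt hn'.le] at h1
  calc ‖((μ n : ℤ) : ℂ)‖ / √n * ‖φ (√n * r)‖ ≤ 1 / √n * (D / (n * r ^ 2)) :=
        mul_le_mul (div_le_div_of_nonneg_right (norm_mu_le n) hs.le) h1 (norm_nonneg _)
          (by positivity)
    _ = _ := by field_simp

theorem ser_summable {φ : ℝ → ℂ} {D : ℝ} (hD : ∀ ρ, 0 < ρ → ‖φ ρ‖ ≤ D / ρ ^ 2) {r : ℝ}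
    (hr : 0 < r) : Summable (fun n : ℕ => (μ n : ℂ) / (√n : ℝ) * φ (√n * r)) :=
  Summable.of_norm_bounded (summable_32.mul_left _) (term_le hD hr)

theorem ser_le {φ : ℝ → ℂ} {D : ℝ} (hD : ∀ ρ, 0 < ρ → ‖φ ρ‖ ≤ D / ρ ^ 2) {r : ℝ} (hr : 0 < r) :
    ‖ser φ r‖ ≤ D * (∑' n : ℕ, 1 / ((n : ℝ) * √n)) / r ^ 2 := by
  refine (tsum_of_norm_bounded (summable_32.mul_left (D / r ^ 2)).hasSum (term_le hD hr)).trans
    (le_of_eq ?_)
  rw [tsum_mul_left]; ring

theorem ser_cont {φ : ℝ → ℂ} {D : ℝ} (hD : ∀ ρ, 0 < ρ → ‖φ ρ‖ ≤ D / ρ ^ 2)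
    (hc : ContinuousOn φ (Ioi 0)) : ContinuousOn (ser φ) (Ioi 0) := by
  have hD0 : 0 ≤ D := by
    have := hD 1 one_pos
    simp only [one_pow, div_one] at this
    exact (norm_nonneg _).trans this
  intro r hr
  have hr' : (0 : ℝ) < r := hr
  have h1 : ContinuousOn (ser φ) (Ioi (r / 2)) := by
    refine continuousOn_tsum (u := fun n : ℕ => D / (r / 2) ^ 2 * (1 / ((n : ℝ) * √n))) ?_
      (summable_32.mul_left _) ?_
    · intro n
      rcases Nat.eq_zero_or_pos n with rfl | hn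
      · simpa using continuousOn_const
      have hs : 0 < √(n : ℝ) := Real.sqrt_pos.2 (by exact_mod_cast hn)
      refine continuousOn_const.mul (hc.comp (by fun_prop) fun x hx => ?_)
      exact mul_pos hs (lt_trans (by positivity) hx)
    · intro n x hx
      have hx' : r / 2 < x := hx
      refine (term_le hD (lt_trans (by positivity) hx') n).trans ?_
      gcongr
  exact (h1.continuousAt (Ioi_mem_nhds (by linarith))).continuousWithinAt

theorem cpow_pos_real {x : ℝ} (hx : 0 < x) (s : ℂ) :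
    (x : ℂ) ^ s = cexp (s * Real.log x) := by
  rw [Complex.cpow_def_of_ne_zero (by exact_mod_cast hx.ne'), ← Complex.ofReal_log hx.le, mul_comm]

theorem ser_mellin {φ : ℝ → ℂ} {w : ℂ} (hw : 1 < w.re) (hm : MellinConvergent φ w) :
    mellin (ser φ) w = LSeries (fun n => (μ n : ℂ)) ((1 + w) / 2) * mellin φ w := by
  have hs : 1 < ((1 + w) / 2).re := by
    simp only [div_ofNat_re, add_re, one_re]; linarith
  have hL : Summable (LSeries.term (fun n => (μ n : ℂ)) ((1 + w) / 2)) :=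
    ArithmeticFunction.LSeriesSummable_moebius_iff.2 hs
  have hterm : ∀ n : ℕ, 0 < n → LSeries.term (fun n => (μ n : ℂ)) ((1 + w) / 2) n =
      (μ n : ℂ) / (√n : ℝ) * ((√n : ℝ) : ℂ) ^ (-w) := by
    intro n hn
    have hn' : (0 : ℝ) < n := by exact_mod_cast hn
    have hsq : 0 < √(n : ℝ) := Real.sqrt_pos.2 hn'
    rw [LSeries.term_of_ne_zero hn.ne', ← Complex.ofReal_natCast, cpow_pos_real hn',
      cpow_pos_real hsq, ← Complex.cpow_one ((√n : ℝ) : ℂ), cpow_pos_real hsq,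
      Real.log_sqrt hn'.le, div_eq_mul_inv, div_eq_mul_inv (μ n : ℂ), ← Complex.exp_neg,
      ← Complex.exp_neg, mul_assoc, ← Complex.exp_add]
    congr 2
    push_cast; ring
  have hint : ∀ n : ℕ, Integrable (fun t : ℝ => (t : ℂ) ^ (w - 1) •
      ((μ n : ℂ) / (√n : ℝ) * φ (√n * t))) (volume.restrict (Ioi 0)) := by
    intro n
    rcases Nat.eq_zero_or_pos n with rfl | hn
    · simp
    have hsq : 0 < √(n : ℝ) := Real.sqrt_pos.2 (by exact_mod_cast hn)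
    exact ((MellinConvergent.comp_mul_left hsq).2 hm).const_smul ((μ n : ℂ) / (√n : ℝ))
  have hval : ∀ n : ℕ, ∫ t : ℝ in Ioi 0, (t : ℂ) ^ (w - 1) •
      ((μ n : ℂ) / (√n : ℝ) * φ (√n * t)) =
      LSeries.term (fun n => (μ n : ℂ)) ((1 + w) / 2) n * mellin φ w := by
    intro n
    rcases Nat.eq_zero_or_pos n with rfl | hn
    · simp
    have hsq : 0 < √(n : ℝ) := Real.sqrt_pos.2 (by exact_mod_cast hn)
    have h1 := mellin_const_smul (fun t => φ (√n * t)) w ((μ n : ℂ) / (√n : ℝ))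
    rw [mellin_comp_mul_left φ w hsq] at h1
    rw [hterm n hn, mul_assoc]
    exact h1
  have hnorm : ∀ n : ℕ, ∫ t : ℝ in Ioi 0, ‖(t : ℂ) ^ (w - 1) •
      ((μ n : ℂ) / (√n : ℝ) * φ (√n * t))‖ =
      ‖LSeries.term (fun n => (μ n : ℂ)) ((1 + w) / 2) n‖ *
        ∫ t : ℝ in Ioi 0, ‖(t : ℂ) ^ (w - 1) • φ t‖ := by
    intro n
    rcases Nat.eq_zero_or_pos n with rfl | hn
    · simp
    have hsq : 0 < √(n : ℝ) := Real.sqrt_pos.2 (by exact_mod_cast hn)
    have h1 := integral_comp_mul_left_Ioi (fun t : ℝ => ‖(t : ℂ) ^ (w - 1) • φ t‖) 0 hsq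
    rw [mul_zero] at h1
    have h2 : ∫ t : ℝ in Ioi 0, ‖(t : ℂ) ^ (w - 1) • ((μ n : ℂ) / (√n : ℝ) * φ (√n * t))‖ =
        ∫ t : ℝ in Ioi 0, (‖(μ n : ℂ) / (√n : ℝ)‖ * √n ^ (1 - w.re)) *
          ‖((√n * t : ℝ) : ℂ) ^ (w - 1) • φ (√n * t)‖ := by
      refine setIntegral_congr_fun measurableSet_Ioi fun t ht => ?_
      have ht' : (0 : ℝ) < t := ht
      simp only [norm_smul, norm_mul]
      rw [Complex.norm_cpow_eq_rpow_re_of_pos ht', Complex.norm_cpow_eq_rpow_re_of_pos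
        (mul_pos hsq ht'), Real.mul_rpow hsq.le ht'.le, sub_re, one_re]
      have h3 : √(n : ℝ) ^ (1 - w.re) * √(n : ℝ) ^ (w.re - 1) = 1 := by
        rw [← Real.rpow_add hsq]; simp
      linear_combination (-(t ^ (w.re - 1) * ‖((μ n : ℤ) : ℂ) / (√n : ℝ)‖ * ‖φ (√n * t)‖)) * h3
    rw [h2, integral_const_mul, h1, hterm n hn, norm_mul,
      Complex.norm_cpow_eq_rpow_re_of_pos hsq, smul_eq_mul, neg_re, sub_eq_add_neg,
      Real.rpow_add hsq, Real.rpow_one]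
    field_simp
  have h := hasSum_integral_of_summable_integral_norm hint (by
    simp only [hnorm]; exact hL.norm.mul_right _)
  simp only [hval] at h
  rw [LSeries, ← tsum_mul_right, h.tsum_eq, mellin]
  congr 1
  ext t
  rw [ser, smul_eq_mul, ← tsum_mul_left]
  rfl

end

end H682Z
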